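import Pool.Agent.H.MP_656320_nt.Hk

/-!
# Comparison of the numbers of positive and of negative coefficients
-/

namespace Pool.Agent.H.MP_656320_nt

open Finset

private theorem Cmp_flip0 {L C : ℝ} (hC : 0 < C) (hL : L ^ 2 < 4 * C) : ∃ J : ℕ, ∀ x : ℕ → ℝ,
    (∀ j, x (j + 2) = L * x (j + 1) - C * x j) → 0 < x 0 → ∃ j ≤ J, x j < 0 := by
  obtain ⟨q, hq, hqC⟩ : ∃ q : ℝ, 0 < q ∧ q * q = C :=
    ⟨Real.sqrt C, Real.sqrt_pos.2 hC, Real.mul_self_sqrt hC.le⟩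
  have hLq : L < 2 * q := by nlinarith
  obtain ⟨d, hd⟩ : ∃ d : ℝ, d = 2 - L / q := ⟨_, rfl⟩
  have hd0 : 0 < d := by
    have h1 : L / q < 2 := by
      rw [div_lt_iff₀ hq]
      exact hLq
    linarith
  refine ⟨⌈2 / d⌉₊ + 3, fun x hx hx0 => ?_⟩
  by_contra hcon
  have hnn : ∀ j ≤ ⌈2 / d⌉₊ + 3, 0 ≤ x j := fun j hj => by
    by_contra h1
    exact hcon ⟨j, hj, not_le.1 h1⟩
  have hpos : ∀ j, j + 1 ≤ ⌈2 / d⌉₊ + 3 → 0 < x j := by
    intro j
    induction j with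
    | zero => exact fun _ => hx0
    | succ j ih =>
      intro hj
      have h1 := ih (by omega)
      rcases (hnn (j + 1) (by omega)).lt_or_eq with h2 | h2
      · exact h2
      · exfalso
        have h3 := hx j
        rw [← h2, mul_zero, zero_sub] at h3
        have h4 := hnn (j + 2) (by omega)
        have h5 := mul_pos hC h1
        linarith
  have hr : ∀ k, k ≤ ⌈2 / d⌉₊ → x (k + 2) ≤ (2 - k * d) * (q * x (k + 1)) := by
    intro k
    induction k with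
    | zero =>
      intro _
      have h1 := hx 0
      have h2 := hpos 0 (by omega)
      have h3 := hpos 1 (by omega)
      have h4 : L * x 1 ≤ 2 * q * x 1 := mul_le_mul_of_nonneg_right hLq.le h3.le
      have h5 := mul_pos hC h2
      rw [Nat.cast_zero, zero_mul, sub_zero]
      show x (0 + 2) ≤ 2 * (q * x (0 + 1))
      rw [h1]
      simp only [zero_add]
      linarith
    | succ k ih =>
      intro hk
      have h1 := ih (by omega)
      have h2 := hx (k + 1)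
      have h3 := hpos (k + 1) (by omega)
      have h4 := hpos (k + 2) (by omega)
      have hd1 : L = (2 - d) * q := by
        rw [hd]
        field_simp
        ring
      have h7 : 0 < q * x (k + 1) := mul_pos hq h3
      have h8 : (k : ℝ) * d * x (k + 2) ≤ q * x (k + 1) := by
        have h9 : (k : ℝ) * d * x (k + 2) ≤ (k : ℝ) * d * ((2 - k * d) * (q * x (k + 1))) :=
          mul_le_mul_of_nonneg_left h1 (by positivity)
        have h10 : (k : ℝ) * d * (2 - k * d) ≤ 1 := by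
          have h11 := sq_nonneg ((k : ℝ) * d - 1)
          have h12 : (k : ℝ) * d * (2 - k * d) = 1 - ((k : ℝ) * d - 1) ^ 2 := by ring
          linarith
        have h11 : (k : ℝ) * d * (2 - k * d) * (q * x (k + 1)) ≤ 1 * (q * x (k + 1)) :=
          mul_le_mul_of_nonneg_right h10 h7.le
        have h12 : (k : ℝ) * d * ((2 - k * d) * (q * x (k + 1))) =
            (k : ℝ) * d * (2 - k * d) * (q * x (k + 1)) := by ring
        linarith
      have h9 : q * ((k : ℝ) * d * x (k + 2)) ≤ q * (q * x (k + 1)) :=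
        mul_le_mul_of_nonneg_left h8 hq.le
      have h10 : x (k + 1 + 2) = (2 - d) * q * x (k + 2) - q * q * x (k + 1) := by
        rw [h2, hd1, ← hqC]
      rw [h10]
      push_cast
      have h11 : (2 - ((k : ℝ) + 1) * d) * (q * x (k + 1 + 1)) =
          (2 - d) * q * x (k + 2) - q * ((k : ℝ) * d * x (k + 2)) := by ring
      rw [h11]
      linarith
  have h1 := hr ⌈2 / d⌉₊ le_rfl
  have h2 := hpos (⌈2 / d⌉₊ + 2) (by omega)
  have h3 := hpos (⌈2 / d⌉₊ + 1) (by omega)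
  have h4 : 2 ≤ (⌈2 / d⌉₊ : ℝ) * d := by
    have h5 := Nat.le_ceil (2 / d)
    rw [div_le_iff₀ hd0] at h5
    exact h5
  have h5 : (2 - (⌈2 / d⌉₊ : ℝ) * d) * (q * x (⌈2 / d⌉₊ + 1)) ≤ 0 :=
    mul_nonpos_of_nonpos_of_nonneg (by linarith) (mul_pos hq h3).le
  linarith

/-- Solutions of the recursion change their sign. -/
theorem flip {L C : ℝ} (hC : 0 < C) (hL : L ^ 2 < 4 * C) : ∃ J : ℕ, ∀ x : ℕ → ℝ,
    (∀ j, x (j + 2) = L * x (j + 1) - C * x j) → (0 < x 0 → ∃ j ≤ J, x j < 0) ∧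
      (x 0 < 0 → ∃ j ≤ J, 0 < x j) := by
  obtain ⟨J, hJ⟩ := Cmp_flip0 hC hL
  refine ⟨J, fun x hx => ⟨hJ x hx, fun h0 => ?_⟩⟩
  obtain ⟨j, hj, h1⟩ := hJ (fun j => -x j) (fun j => by
    show -x (j + 2) = L * -x (j + 1) - C * -x j
    rw [hx j]
    ring) (by
    show 0 < -x 0
    linarith)
  exact ⟨j, hj, by
    have h2 : -x j < 0 := h1
    linarith⟩

/-- The coefficients with the indices `p ^ (2 * j) * n`. -/
theorem rec_pow {l N : ℕ} {χ lam : ℕ → ℂ} {a : ℕ → ℝ} (h : Hecke l N χ lam a) {p : ℕ}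
    (hp : p.Prime) (hpN : ¬ p ∣ N) (hχ : χ p ^ 2 = 1) {n : ℕ} (hn : 1 ≤ n) (j : ℕ) :
    a (p ^ (2 * (j + 2)) * n) = (lam p).re * a (p ^ (2 * (j + 1)) * n) -
      (p : ℝ) ^ (2 * (l : ℤ) - 1) * a (p ^ (2 * j) * n) := by
  have h0 : 1 ≤ p ^ (2 * (j + 1)) * n := Nat.mul_pos (pow_pos hp.pos _) hn
  have h2 := h.rel p hp hpN _ h0
  have h3 : p ^ 2 * (p ^ (2 * (j + 1)) * n) = p ^ (2 * (j + 2)) * n := by ring
  have h4 : p ^ (2 * (j + 1)) * n = p ^ 2 * (p ^ (2 * j) * n) := by ring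
  have h5 : p ^ 2 ∣ p ^ (2 * (j + 1)) * n := by
    rw [h4]
    exact dvd_mul_right _ _
  have h6 : p ^ (2 * (j + 1)) * n / p ^ 2 = p ^ (2 * j) * n := by
    rw [h4]
    exact Nat.mul_div_cancel_left _ (pow_pos hp.pos 2)
  have h7 : jacobiSym ((-1) ^ l * ((p ^ (2 * (j + 1)) * n : ℕ) : ℤ)) p = 0 := by
    haveI := Fact.mk hp
    rw [jacobiSym.eq_zero_iff_not_coprime]
    rw [Int.gcd_eq_natAbs, Int.natAbs_natCast]
    intro h8
    have h9 : p ∣ ((-1) ^ l * ((p ^ (2 * (j + 1)) * n : ℕ) : ℤ)).natAbs := by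
      rw [Int.natAbs_mul, Int.natAbs_natCast]
      exact (Dvd.intro_left (p * (p ^ (2 * j) * n)) (by ring)).mul_left _
    exact hp.one_lt.ne' (Nat.eq_one_of_dvd_coprimes h8 h9 dvd_rfl)
  rw [h3, h7, if_pos h5, h6, hχ, Int.cast_zero, mul_zero, zero_mul, zero_mul, add_zero,
    one_mul] at h2
  have h8 : ((p : ℂ) ^ (2 * (l : ℤ) - 1)) = (((p : ℝ) ^ (2 * (l : ℤ) - 1) : ℝ) : ℂ) := by
    push_cast
    rfl
  rw [h8] at h2
  have h9 := congrArg Complex.re h2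
  simp only [Complex.add_re, Complex.re_mul_ofReal, Complex.ofReal_re] at h9
  linarith

/-- The number of the elements of a set of positive integers. -/
noncomputable def cnt (A : Set ℕ) (x : ℕ) : ℕ := Set.ncard {n : ℕ | 1 ≤ n ∧ n ≤ x ∧ n ∈ A}

theorem cnt_fin (A : Set ℕ) (x : ℕ) : {n : ℕ | 1 ≤ n ∧ n ≤ x ∧ n ∈ A}.Finite :=
  (Set.finite_Icc 1 x).subset fun _ h => ⟨h.1, h.2.1⟩

theorem cnt_mono {A B : Set ℕ} (h : A ⊆ B) {x y : ℕ} (hxy : x ≤ y) : cnt A x ≤ cnt B y :=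
  Set.ncard_le_ncard (fun _ hn => ⟨hn.1, hn.2.1.trans hxy, h hn.2.2⟩) (cnt_fin B y)

theorem cnt_le (A : Set ℕ) (x : ℕ) : cnt A x ≤ x := by
  have h1 : cnt A x ≤ (Set.Icc 1 x).ncard :=
    Set.ncard_le_ncard (fun _ hn => ⟨hn.1, hn.2.1⟩) (Set.finite_Icc 1 x)
  rw [Set.ncard_eq_toFinset_card', Set.toFinset_Icc, Nat.card_Icc] at h1
  omega

/-- Images under finitely many dilations. -/
theorem cnt_cover {A B : Set ℕ} {m : ℕ → ℕ} (hm : ∀ j, 1 ≤ m j) {J K : ℕ}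
    (hK : ∀ j ≤ J, m j ≤ K) (h : ∀ n ∈ A, 1 ≤ n → ∃ j ≤ J, m j * n ∈ B) (x : ℕ) :
    cnt A x ≤ (J + 1) * cnt B (K * x) := by
  classical
  have h1 : {n : ℕ | 1 ≤ n ∧ n ≤ x ∧ n ∈ A} ⊆
      ⋃ j ∈ Finset.range (J + 1), {n : ℕ | 1 ≤ n ∧ n ≤ x ∧ m j * n ∈ B} := by
    rintro n ⟨hn1, hn2, hn3⟩
    obtain ⟨j, hj, h2⟩ := h n hn3 hn1
    exact Set.mem_biUnion (Finset.mem_coe.2 (Finset.mem_range.2 (by omega))) ⟨hn1, hn2, h2⟩
  have h2 : ∀ j ≤ J, Set.ncard {n : ℕ | 1 ≤ n ∧ n ≤ x ∧ m j * n ∈ B} ≤ cnt B (K * x) := by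
    intro j hj
    refine Set.ncard_le_ncard_of_injOn (fun n => m j * n) ?_ ?_ (cnt_fin B _)
    · rintro n ⟨hn1, hn2, hn3⟩
      exact ⟨Nat.mul_pos (hm j) hn1, Nat.mul_le_mul (hK j hj) hn2, hn3⟩
    · intro n _ n' _ h3
      exact Nat.eq_of_mul_eq_mul_left (hm j) h3
  have h3 : cnt A x ≤ ∑ j ∈ Finset.range (J + 1),
      Set.ncard {n : ℕ | 1 ≤ n ∧ n ≤ x ∧ m j * n ∈ B} := by
    refine (Set.ncard_le_ncard h1 ?_).trans (Finset.set_ncard_biUnion_le _ _)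
    exact Set.Finite.biUnion (Finset.finite_toSet _) fun j _ =>
      (Set.finite_Icc 1 x).subset fun _ h => ⟨h.1, h.2.1⟩
  refine h3.trans ((Finset.sum_le_sum fun j hj => h2 j ?_).trans ?_)
  · have := Finset.mem_range.1 hj
    omega
  · rw [Finset.sum_const, Finset.card_range, smul_eq_mul]

end Pool.Agent.H.MP_656320_nt
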