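import Pool.Agent.H.MP_656320_nt.Cmp

/-!
# Positive lower and upper density
-/

namespace Pool.Agent.H.MP_656320_nt

open Finset

/-- Positive lower density. -/
def LPos (A : Set ℕ) : Prop := ∃ c : ℝ, 0 < c ∧ ∃ X : ℕ, ∀ x : ℕ, X ≤ x → c * x ≤ cnt A x

/-- Positive upper density. -/
def UPos (A : Set ℕ) : Prop := ∃ c : ℝ, 0 < c ∧ ∀ X : ℕ, ∃ x : ℕ, X ≤ x ∧ c * x ≤ cnt A x

theorem LPos.mono {A B : Set ℕ} (h : A ⊆ B) (hA : LPos A) : LPos B := by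
  obtain ⟨c, hc, X, hX⟩ := hA
  exact ⟨c, hc, X, fun x hx => (hX x hx).trans (by exact_mod_cast cnt_mono h le_rfl)⟩

theorem UPos.mono {A B : Set ℕ} (h : A ⊆ B) (hA : UPos A) : UPos B := by
  obtain ⟨c, hc, hX⟩ := hA
  refine ⟨c, hc, fun X => ?_⟩
  obtain ⟨x, hx, h1⟩ := hX X
  exact ⟨x, hx, h1.trans (by exact_mod_cast cnt_mono h le_rfl)⟩

theorem LPos.tr {A B : Set ℕ} {K : ℕ} (hK : 1 ≤ K) (h : ∀ x, cnt A x ≤ K * cnt B (K * x))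
    (hA : LPos A) : LPos B := by
  obtain ⟨c, hc, X, hX⟩ := hA
  have hK0 : (1 : ℝ) ≤ K := by exact_mod_cast hK
  refine ⟨c / (2 * K * K), by positivity, K * X + K, fun y hy => ?_⟩
  have h1 : X ≤ y / K := (Nat.le_div_iff_mul_le hK).2 (by
    rw [mul_comm]
    omega)
  have h2 : 1 ≤ y / K := (Nat.le_div_iff_mul_le hK).2 (by omega)
  have h3 : (y : ℝ) ≤ 2 * K * ((y / K : ℕ) : ℝ) := by
    have h4 := Nat.div_add_mod y K
    have h5 := Nat.mod_lt y hK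
    have h6 : K * 1 ≤ K * (y / K) := Nat.mul_le_mul_left K h2
    have h7 : y ≤ 2 * K * (y / K) := by
      have h8 : 2 * K * (y / K) = K * (y / K) + K * (y / K) := by ring
      omega
    exact_mod_cast h7
  have h4 := hX (y / K) h1
  have h5 : (cnt A (y / K) : ℝ) ≤ K * (cnt B y : ℝ) := by
    have h6 : cnt A (y / K) ≤ K * cnt B y :=
      (h (y / K)).trans (Nat.mul_le_mul_left K (cnt_mono subset_rfl (Nat.mul_div_le y K)))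
    exact_mod_cast h6
  have h6 : c * ((y / K : ℕ) : ℝ) ≤ K * (cnt B y : ℝ) := h4.trans h5
  rw [div_mul_eq_mul_div, div_le_iff₀ (by positivity)]
  have h7 : c * y ≤ c * (2 * K * ((y / K : ℕ) : ℝ)) := mul_le_mul_of_nonneg_left h3 hc.le
  have h8 : (2 * (K : ℝ)) * (c * ((y / K : ℕ) : ℝ)) ≤ (2 * (K : ℝ)) * (K * (cnt B y : ℝ)) :=
    mul_le_mul_of_nonneg_left h6 (by positivity)
  nlinarith

theorem UPos.tr {A B : Set ℕ} {K : ℕ} (hK : 1 ≤ K) (h : ∀ x, cnt A x ≤ K * cnt B (K * x))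
    (hA : UPos A) : UPos B := by
  obtain ⟨c, hc, hX⟩ := hA
  have hK0 : (1 : ℝ) ≤ K := by exact_mod_cast hK
  refine ⟨c / (K * K), by positivity, fun X => ?_⟩
  obtain ⟨x, hx, h1⟩ := hX X
  refine ⟨K * x, hx.trans (Nat.le_mul_of_pos_left x hK), ?_⟩
  have h2 : (cnt A x : ℝ) ≤ K * (cnt B (K * x) : ℝ) := by exact_mod_cast h x
  rw [div_mul_eq_mul_div, div_le_iff₀ (by positivity)]
  push_cast
  have h3 : (K : ℝ) * (c * x) ≤ (K : ℝ) * (K * (cnt B (K * x) : ℝ)) :=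
    mul_le_mul_of_nonneg_left (h1.trans h2) (by positivity)
  linarith

/-- The indices of the coefficients which are not zero. -/
theorem cnt_sf {l N : ℕ} {χ lam : ℕ → ℂ} {a : ℕ → ℝ} (ha : Hecke l N χ lam a) {M : ℕ}
    (hM : 1 ≤ M) (x : ℕ) :
    (cnt {n | a n ≠ 0} x : ℝ) ≤ M * cnt {n | n ∈ Sf N ∧ a n ≠ 0} x + x / M := by
  classical
  have hM0 : (0 : ℝ) < M := by exact_mod_cast hM
  have h1 : {n : ℕ | 1 ≤ n ∧ n ≤ x ∧ n ∈ {n | a n ≠ 0}} ⊆ ⋃ m ∈ Finset.Ioc 0 x,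
      (fun t => t * m ^ 2) '' {t : ℕ | 1 ≤ t ∧ t * m ^ 2 ≤ x ∧ t ∈ {n | n ∈ Sf N ∧ a n ≠ 0}} := by
    rintro n ⟨hn1, hn2, hn3⟩
    obtain ⟨t, m, ht, hm, hmN, h2⟩ := exists_sq N hn1
    obtain ⟨G, -, -, hG⟩ := exists_G ha hm hmN
    have h3 := hG t ht.1 fun p hp hpm => ht.2 p hp fun h4 =>
      hp.one_lt.ne' (Nat.eq_one_of_dvd_coprimes hmN hpm h4)
    have h4 : a t ≠ 0 := fun h5 => hn3 (by rw [h2, h3, h5, mul_zero])
    have h5 : m ^ 2 ≤ n := by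
      rw [h2]
      exact Nat.le_mul_of_pos_left _ ht.1
    have h6 : m ≤ m ^ 2 := Nat.le_self_pow (by norm_num) m
    exact Set.mem_biUnion (Finset.mem_coe.2 (Finset.mem_Ioc.2 ⟨hm, by omega⟩))
      ⟨t, ⟨ht.1, by rw [← h2]; exact hn2, ht, h4⟩, h2.symm⟩
  have hfin : ∀ m : ℕ, 1 ≤ m →
      {t : ℕ | 1 ≤ t ∧ t * m ^ 2 ≤ x ∧ t ∈ {n | n ∈ Sf N ∧ a n ≠ 0}}.Finite := by
    intro m hm
    refine (Set.finite_Icc 1 x).subset fun t ht => ⟨ht.1, ?_⟩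
    exact (Nat.le_mul_of_pos_right t (pow_pos hm 2)).trans ht.2.1
  have h2 : (cnt {n | a n ≠ 0} x : ℝ) ≤ ∑ m ∈ Finset.Ioc 0 x,
      (Set.ncard {t : ℕ | 1 ≤ t ∧ t * m ^ 2 ≤ x ∧ t ∈ {n | n ∈ Sf N ∧ a n ≠ 0}} : ℝ) := by
    have h3 : cnt {n | a n ≠ 0} x ≤ ∑ m ∈ Finset.Ioc 0 x,
        Set.ncard {t : ℕ | 1 ≤ t ∧ t * m ^ 2 ≤ x ∧ t ∈ {n | n ∈ Sf N ∧ a n ≠ 0}} := by
      refine (Set.ncard_le_ncard h1 ?_).trans ((Finset.set_ncard_biUnion_le _ _).trans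
        (Finset.sum_le_sum fun m hm => ?_))
      · exact Set.Finite.biUnion (Finset.finite_toSet _) fun m hm =>
          (hfin m (Finset.mem_Ioc.1 (Finset.mem_coe.1 hm)).1).image _
      · exact Set.ncard_image_le (hfin m (Finset.mem_Ioc.1 hm).1)
    exact_mod_cast h3
  have h3 : ∀ m : ℕ, 1 ≤ m →
      Set.ncard {t : ℕ | 1 ≤ t ∧ t * m ^ 2 ≤ x ∧ t ∈ {n | n ∈ Sf N ∧ a n ≠ 0}} ≤
        cnt {n | n ∈ Sf N ∧ a n ≠ 0} x := by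
    intro m hm
    refine Set.ncard_le_ncard (fun t ht => ⟨ht.1, ?_, ht.2.2⟩) (cnt_fin _ _)
    exact (Nat.le_mul_of_pos_right t (pow_pos hm 2)).trans ht.2.1
  have h4 : ∀ m : ℕ, 1 ≤ m →
      (Set.ncard {t : ℕ | 1 ≤ t ∧ t * m ^ 2 ≤ x ∧ t ∈ {n | n ∈ Sf N ∧ a n ≠ 0}} : ℝ) ≤
        x * ((m : ℝ) ^ 2)⁻¹ := by
    intro m hm
    have h5 : Set.ncard {t : ℕ | 1 ≤ t ∧ t * m ^ 2 ≤ x ∧ t ∈ {n | n ∈ Sf N ∧ a n ≠ 0}} ≤
        x / m ^ 2 := by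
      have h6 : Set.ncard {t : ℕ | 1 ≤ t ∧ t * m ^ 2 ≤ x ∧ t ∈ {n | n ∈ Sf N ∧ a n ≠ 0}} ≤
          (Set.Icc 1 (x / m ^ 2)).ncard :=
        Set.ncard_le_ncard (fun t ht =>
          ⟨ht.1, (Nat.le_div_iff_mul_le (pow_pos hm 2)).2 ht.2.1⟩) (Set.finite_Icc _ _)
      have h7 : (Set.Icc 1 (x / m ^ 2)).ncard = x / m ^ 2 := by
        rw [Set.ncard_eq_toFinset_card', Set.toFinset_Icc, Nat.card_Icc, Nat.add_sub_cancel]
      rw [h7] at h6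
      exact h6
    have h6 : ((x / m ^ 2 : ℕ) : ℝ) ≤ x / ((m ^ 2 : ℕ) : ℝ) := Nat.cast_div_le
    have h7 : (Set.ncard {t : ℕ | 1 ≤ t ∧ t * m ^ 2 ≤ x ∧ t ∈ {n | n ∈ Sf N ∧ a n ≠ 0}} : ℝ) ≤
        ((x / m ^ 2 : ℕ) : ℝ) := Nat.cast_le.2 h5
    have h8 : x / ((m ^ 2 : ℕ) : ℝ) = x * ((m : ℝ) ^ 2)⁻¹ := by
      push_cast
      exact div_eq_mul_inv _ _
    rw [h8] at h6
    exact h7.trans h6
  refine h2.trans ?_
  rcases le_or_gt M x with hx | hx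
  · rw [← Finset.sum_Ioc_consecutive _ (Nat.zero_le M) hx]
    refine add_le_add ?_ ?_
    · refine (Finset.sum_le_sum fun m hm =>
        (show _ ≤ (cnt {n | n ∈ Sf N ∧ a n ≠ 0} x : ℝ) by
          exact_mod_cast h3 m (Finset.mem_Ioc.1 hm).1)).trans ?_
      rw [Finset.sum_const, Nat.card_Ioc, nsmul_eq_mul, Nat.sub_zero]
    · refine (Finset.sum_le_sum fun m hm => h4 m (by
        have := (Finset.mem_Ioc.1 hm).1
        omega)).trans ?_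
      rw [← Finset.mul_sum, div_eq_mul_inv]
      refine mul_le_mul_of_nonneg_left ?_ (Nat.cast_nonneg x)
      have h5 := sum_Ioc_inv_sq_le_sub (α := ℝ) (k := M) (n := x) (by omega) hx
      have h6 : (0 : ℝ) ≤ (x : ℝ)⁻¹ := by positivity
      linarith
  · refine (Finset.sum_le_sum fun m hm =>
      (show _ ≤ (cnt {n | n ∈ Sf N ∧ a n ≠ 0} x : ℝ) by
        exact_mod_cast h3 m (Finset.mem_Ioc.1 hm).1)).trans ?_
    rw [Finset.sum_const, Nat.card_Ioc, nsmul_eq_mul, Nat.sub_zero]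
    have h5 : (x : ℝ) ≤ M := by exact_mod_cast hx.le
    have h6 : (x : ℝ) * cnt {n | n ∈ Sf N ∧ a n ≠ 0} x ≤ M * cnt {n | n ∈ Sf N ∧ a n ≠ 0} x :=
      mul_le_mul_of_nonneg_right h5 (Nat.cast_nonneg _)
    have h7 : (0 : ℝ) ≤ x / M := by positivity
    linarith

theorem LPos.sf {l N : ℕ} {χ lam : ℕ → ℂ} {a : ℕ → ℝ} (ha : Hecke l N χ lam a)
    (h : LPos {n | a n ≠ 0}) : LPos {n | n ∈ Sf N ∧ a n ≠ 0} := by
  obtain ⟨c, hc, X, hX⟩ := h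
  obtain ⟨M, hM⟩ : ∃ M : ℕ, M = ⌈2 / c⌉₊ := ⟨_, rfl⟩
  have hM1 : 1 ≤ M := by
    rw [hM]
    exact Nat.ceil_pos.2 (by positivity)
  have hM0 : (0 : ℝ) < M := by exact_mod_cast hM1
  have hMc : 2 ≤ M * c := by
    have h5 := Nat.le_ceil (2 / c)
    rw [div_le_iff₀ hc, ← hM] at h5
    exact h5
  refine ⟨c / (2 * M), by positivity, X, fun x hx => ?_⟩
  have h1 := hX x hx
  have h2 := cnt_sf ha hM1 x
  have h3 : (x : ℝ) / M ≤ c / 2 * x := by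
    rw [div_le_iff₀ hM0]
    have h4 : 0 ≤ (x : ℝ) * (M * c - 2) := mul_nonneg (Nat.cast_nonneg x) (by linarith)
    nlinarith
  rw [div_mul_eq_mul_div, div_le_iff₀ (by positivity)]
  linarith

theorem UPos.sf {l N : ℕ} {χ lam : ℕ → ℂ} {a : ℕ → ℝ} (ha : Hecke l N χ lam a)
    (h : UPos {n | a n ≠ 0}) : UPos {n | n ∈ Sf N ∧ a n ≠ 0} := by
  obtain ⟨c, hc, hX⟩ := h
  obtain ⟨M, hM⟩ : ∃ M : ℕ, M = ⌈2 / c⌉₊ := ⟨_, rfl⟩
  have hM1 : 1 ≤ M := by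
    rw [hM]
    exact Nat.ceil_pos.2 (by positivity)
  have hM0 : (0 : ℝ) < M := by exact_mod_cast hM1
  have hMc : 2 ≤ M * c := by
    have h5 := Nat.le_ceil (2 / c)
    rw [div_le_iff₀ hc, ← hM] at h5
    exact h5
  refine ⟨c / (2 * M), by positivity, fun X => ?_⟩
  obtain ⟨x, hx, h1⟩ := hX X
  refine ⟨x, hx, ?_⟩
  have h2 := cnt_sf ha hM1 x
  have h3 : (x : ℝ) / M ≤ c / 2 * x := by
    rw [div_le_iff₀ hM0]
    have h4 : 0 ≤ (x : ℝ) * (M * c - 2) := mul_nonneg (Nat.cast_nonneg x) (by linarith)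
    nlinarith
  rw [div_mul_eq_mul_div, div_le_iff₀ (by positivity)]
  linarith

end Pool.Agent.H.MP_656320_nt
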