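import Mathlib

/-!
# Hecke relations in half-integral weight and the indices without square factors
-/

namespace Pool.Agent.H.MP_656320_nt

open Finset

/-- The relations between the coefficients `a n` of an eigenfunction of all operators `T(p ^ 2)`,
`p` prime to the level `N`, in weight `l + 1 / 2` with character `χ` (Shimura's formula for `T(p ^ 2)`);
`lam p` = the eigenvalue of `T(p ^ 2)`. -/
structure Hecke (l N : ℕ) (χ lam : ℕ → ℂ) (a : ℕ → ℝ) : Prop where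
  four : 4 ∣ N
  rel : ∀ p : ℕ, p.Prime → ¬ p ∣ N → ∀ n : ℕ, 1 ≤ n →
    (a (p ^ 2 * n) : ℂ) +
      χ p * (jacobiSym ((-1) ^ l * n) p : ℂ) * (p : ℂ) ^ ((l : ℤ) - 1) * (a n : ℂ) +
      χ p ^ 2 * (p : ℂ) ^ (2 * (l : ℤ) - 1) * ((if p ^ 2 ∣ n then a (n / p ^ 2) else 0 : ℝ) : ℂ) =
    lam p * (a n : ℂ)

/-- The positive integers which are not divisible by the square of a prime number prime to `N`. -/
def Sf (N : ℕ) : Set ℕ := {n | 1 ≤ n ∧ ∀ p : ℕ, p.Prime → ¬ p ∣ N → ¬ p ^ 2 ∣ n}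

/-- The coefficients of `a(t * p ^ (2 * j))`. -/
private noncomputable def Hk_c (A B C : ℂ) : ℕ → ℂ
  | 0 => 1
  | 1 => A - B
  | j + 2 => A * Hk_c A B C (j + 1) - C * Hk_c A B C j

private theorem Hk_pow {l N : ℕ} {χ lam : ℕ → ℂ} {a : ℕ → ℝ} (h : Hecke l N χ lam a) {p : ℕ}
    (hp : p.Prime) (hpN : ¬ p ∣ N) {t : ℕ} (ht : 1 ≤ t) (hpt : ¬ p ^ 2 ∣ t) (j : ℕ) :
    (a (t * (p ^ j) ^ 2) : ℂ) =
      Hk_c (lam p) (χ p * (jacobiSym ((-1) ^ l * t) p : ℂ) * (p : ℂ) ^ ((l : ℤ) - 1))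
        (χ p ^ 2 * (p : ℂ) ^ (2 * (l : ℤ) - 1)) j * (a t : ℂ) := by
  induction j using Nat.strong_induction_on with
  | _ j ih =>
    match j with
    | 0 => simp [Hk_c]
    | 1 =>
      have h1 := h.rel p hp hpN t ht
      rw [if_neg hpt, Complex.ofReal_zero, mul_zero, add_zero] at h1
      have h2 : t * (p ^ 1) ^ 2 = p ^ 2 * t := by ring
      rw [h2]
      show _ = (lam p - _) * (a t : ℂ)
      linear_combination h1
    | j + 2 =>
      have h0 := ih j (by omega)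
      have h1 := ih (j + 1) (by omega)
      have hn : 1 ≤ t * (p ^ (j + 1)) ^ 2 :=
        Nat.mul_pos ht (pow_pos (pow_pos hp.pos _) _)
      have h2 := h.rel p hp hpN (t * (p ^ (j + 1)) ^ 2) hn
      have h3 : p ^ 2 * (t * (p ^ (j + 1)) ^ 2) = t * (p ^ (j + 2)) ^ 2 := by ring
      have h4 : t * (p ^ (j + 1)) ^ 2 = p ^ 2 * (t * (p ^ j) ^ 2) := by ring
      have h5 : p ^ 2 ∣ t * (p ^ (j + 1)) ^ 2 := by
        rw [h4]
        exact dvd_mul_right _ _
      have h6 : t * (p ^ (j + 1)) ^ 2 / p ^ 2 = t * (p ^ j) ^ 2 := by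
        rw [h4]
        exact Nat.mul_div_cancel_left _ (pow_pos hp.pos 2)
      have h7 : jacobiSym ((-1) ^ l * ((t * (p ^ (j + 1)) ^ 2 : ℕ) : ℤ)) p = 0 := by
        haveI := Fact.mk hp
        rw [jacobiSym.eq_zero_iff_not_coprime]
        rw [Int.gcd_eq_natAbs, Int.natAbs_natCast]
        intro h8
        have h9 : p ∣ ((-1) ^ l * ((t * (p ^ (j + 1)) ^ 2 : ℕ) : ℤ)).natAbs := by
          rw [Int.natAbs_mul, Int.natAbs_natCast]
          exact (Dvd.intro_left (p * t * (p ^ j) ^ 2) (by ring)).mul_left _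
        exact hp.one_lt.ne' (Nat.eq_one_of_dvd_coprimes h8 h9 dvd_rfl)
      rw [h3, h7, if_pos h5, h6, h0, h1] at h2
      show _ = (lam p * Hk_c _ _ _ (j + 1) - _ * Hk_c _ _ _ j) * (a t : ℂ)
      push_cast at h2 ⊢
      linear_combination h2

/-- The coefficients of `a (t * m ^ 2)`. -/
theorem exists_G {l N : ℕ} {χ lam : ℕ → ℂ} {a : ℕ → ℝ} (h : Hecke l N χ lam a) {m : ℕ}
    (hm : 1 ≤ m) (hN : m.Coprime N) : ∃ G : ℕ → ℝ, (∀ t, G (t + m) = G t) ∧
      (∀ t u, u.Coprime m → G (t * u ^ 2) = G t) ∧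
      ∀ t, 1 ≤ t → (∀ p : ℕ, p.Prime → p ∣ m → ¬ p ^ 2 ∣ t) → a (t * m ^ 2) = G t * a t := by
  induction m using Nat.recOnPosPrimePosCoprime with
  | prime_pow p j hp hj =>
    have hpN : ¬ p ∣ N := fun h1 => by
      have h2 := Nat.eq_one_of_dvd_coprimes hN (dvd_pow_self p hj.ne') h1
      exact hp.one_lt.ne' h2
    refine ⟨fun t => (Hk_c (lam p) (χ p * (jacobiSym ((-1) ^ l * t) p : ℂ) *
      (p : ℂ) ^ ((l : ℤ) - 1)) (χ p ^ 2 * (p : ℂ) ^ (2 * (l : ℤ) - 1)) j).re, ?_, ?_, ?_⟩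
    · intro t
      have h1 : jacobiSym ((-1) ^ l * ((t + p ^ j : ℕ) : ℤ)) p = jacobiSym ((-1) ^ l * (t : ℤ)) p := by
        obtain ⟨i, rfl⟩ : ∃ i, j = i + 1 := ⟨j - 1, by omega⟩
        have h2 : (-1) ^ l * ((t + p ^ (i + 1) : ℕ) : ℤ) =
            (-1) ^ l * (t : ℤ) + p * ((-1) ^ l * p ^ i) := by
          push_cast
          ring
        rw [jacobiSym.mod_left, jacobiSym.mod_left ((-1) ^ l * (t : ℤ)), h2,
          Int.add_mul_emod_self_left]
      simp only [h1]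
    · intro t u hu
      have hup : u.Coprime p := Nat.Coprime.coprime_dvd_right (dvd_pow_self p hj.ne') hu
      have h1 : jacobiSym ((-1) ^ l * ((t * u ^ 2 : ℕ) : ℤ)) p =
          jacobiSym ((-1) ^ l * (t : ℤ)) p := by
        push_cast
        rw [← mul_assoc, jacobiSym.mul_left, jacobiSym.sq_one' ?_, mul_one]
        exact Int.isCoprime_iff_gcd_eq_one.1 (Nat.isCoprime_iff_coprime.2 hup)
      simp only [h1]
    · intro t ht hpt
      have h1 := Hk_pow h hp hpN ht (hpt p hp (dvd_pow_self p hj.ne')) j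
      have h2 := congrArg Complex.re h1
      rw [Complex.ofReal_re, Complex.mul_re, Complex.ofReal_re, Complex.ofReal_im, mul_zero,
        sub_zero] at h2
      exact h2
  | zero => omega
  | one =>
    refine ⟨fun _ => 1, fun _ => rfl, fun _ _ _ => rfl, fun t _ _ => ?_⟩
    rw [one_pow, mul_one, one_mul]
  | coprime b c hb hc hbc ihb ihc =>
    obtain ⟨Gb, hb1, hb2, hb3⟩ := ihb (by omega) (Nat.Coprime.coprime_dvd_left (dvd_mul_right b c) hN)
    obtain ⟨Gc, hc1, hc2, hc3⟩ := ihc (by omega) (Nat.Coprime.coprime_dvd_left (dvd_mul_left c b) hN)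
    have hbp : ∀ k t, Gb (t + k * b) = Gb t := by
      intro k
      induction k with
      | zero => intro t; simp
      | succ k ih => intro t; rw [Nat.succ_mul, ← add_assoc, hb1, ih]
    have hcp : ∀ k t, Gc (t + k * c) = Gc t := by
      intro k
      induction k with
      | zero => intro t; simp
      | succ k ih => intro t; rw [Nat.succ_mul, ← add_assoc, hc1, ih]
    refine ⟨fun t => Gb (t * c ^ 2) * Gc t, ?_, ?_, ?_⟩
    · intro t
      have h1 : (t + b * c) * c ^ 2 = t * c ^ 2 + (c * c ^ 2) * b := by ring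
      show Gb ((t + b * c) * c ^ 2) * Gc (t + b * c) = _
      rw [h1, hbp, hcp]
    · intro t u hu
      have h1 : t * u ^ 2 * c ^ 2 = t * c ^ 2 * u ^ 2 := by ring
      show Gb (t * u ^ 2 * c ^ 2) * Gc (t * u ^ 2) = _
      rw [h1, hb2 _ _ (Nat.Coprime.coprime_dvd_right (dvd_mul_right b c) hu),
        hc2 _ _ (Nat.Coprime.coprime_dvd_right (dvd_mul_left c b) hu)]
    · intro t ht hpt
      have h1 : t * (b * c) ^ 2 = t * c ^ 2 * b ^ 2 := by ring
      rw [h1, hb3 (t * c ^ 2) (Nat.mul_pos ht (pow_pos (by omega) 2)) ?_, hc3 t ht ?_]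
      · ring
      · intro p hp hpc
        exact hpt p hp (hpc.mul_left b)
      · intro p hp hpb h2
        have hpc : ¬ p ∣ c := fun h3 => hp.one_lt.ne' (Nat.eq_one_of_dvd_coprimes hbc hpb h3)
        have h4 : (p ^ 2).Coprime (c ^ 2) :=
          Nat.Coprime.pow 2 2 ((Nat.Prime.coprime_iff_not_dvd hp).2 hpc)
        exact hpt p hp (hpb.mul_right c) (h4.dvd_of_dvd_mul_right h2)

/-- Square divisors. -/
theorem dvd_of_sq {N t m k : ℕ} (ht : t ∈ Sf N) (hm : m.Coprime N) (hm1 : 1 ≤ m) (hk : 1 ≤ k)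
    (h : m ^ 2 ∣ t * k ^ 2) : m ∣ k := by
  obtain ⟨m', k', hc, h1, h2⟩ := Nat.exists_coprime m k
  set g := Nat.gcd m k with hg
  have hg0 : 0 < g := Nat.gcd_pos_of_pos_left k hm1
  have h3 : m' ^ 2 ∣ t * k' ^ 2 := by
    have h4 : g ^ 2 * m' ^ 2 ∣ g ^ 2 * (t * k' ^ 2) := by
      have h5 : g ^ 2 * m' ^ 2 = m ^ 2 := by
        conv_rhs => rw [h1]
        ring
      have h6 : g ^ 2 * (t * k' ^ 2) = t * k ^ 2 := by
        conv_rhs => rw [h2]
        ring
      rw [h5, h6]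
      exact h
    exact Nat.dvd_of_mul_dvd_mul_left (pow_pos hg0 2) h4
  have h4 : m' ^ 2 ∣ t := (Nat.Coprime.pow 2 2 hc).dvd_of_dvd_mul_right h3
  have h5 : m' = 1 := by
    by_contra h6
    obtain ⟨p, hp, hpm⟩ := Nat.exists_prime_and_dvd h6
    have hpN : ¬ p ∣ N := fun h7 => by
      have h8 : p ∣ m := by
        rw [h1]
        exact hpm.mul_right g
      exact hp.one_lt.ne' (Nat.eq_one_of_dvd_coprimes hm h8 h7)
    exact ht.2 p hp hpN ((pow_dvd_pow_of_dvd hpm 2).trans h4)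
  rw [h1, h5, one_mul]
  exact Nat.gcd_dvd_right m k

/-- Every positive integer is the product of a number in `Sf N` and of a square prime to `N`. -/
theorem exists_sq (N : ℕ) {n : ℕ} (hn : 1 ≤ n) : ∃ t m, t ∈ Sf N ∧ 1 ≤ m ∧ m.Coprime N ∧
    n = t * m ^ 2 := by
  classical
  have h1 : ∃ m, m ≤ n ∧ (m.Coprime N ∧ m ^ 2 ∣ n) := ⟨1, hn, Nat.coprime_one_left N, by simp⟩
  set m := Nat.findGreatest (fun m => m.Coprime N ∧ m ^ 2 ∣ n) n with hm
  obtain ⟨m₁, h2, h3⟩ := h1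
  have h4 : m.Coprime N ∧ m ^ 2 ∣ n :=
    Nat.findGreatest_spec (P := fun m => m.Coprime N ∧ m ^ 2 ∣ n) h2 h3
  obtain ⟨t, ht⟩ := h4.2
  have hm0 : 1 ≤ m := by
    by_contra h5
    have h6 : m = 0 := by omega
    rw [h6] at ht
    simp at ht
    omega
  have ht0 : 1 ≤ t := by
    by_contra h5
    have h6 : t = 0 := by omega
    rw [h6, mul_zero] at ht
    omega
  refine ⟨t, m, ⟨ht0, fun p hp hpN hpt => ?_⟩, hm0, h4.1, by rw [mul_comm]; exact ht⟩
  have h5 : (m * p).Coprime N ∧ (m * p) ^ 2 ∣ n := by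
    refine ⟨Nat.Coprime.mul_left h4.1 ((Nat.Prime.coprime_iff_not_dvd hp).2 hpN), ?_⟩
    rw [mul_pow, ht]
    exact mul_dvd_mul_left _ hpt
  have h6 : m * p ≤ n := by
    have h7 := Nat.le_of_dvd hn h5.2
    have h8 : m * p ≤ (m * p) ^ 2 := Nat.le_self_pow (by norm_num) _
    omega
  have h7 : m * p ≤ m := Nat.le_findGreatest h6 h5
  have h8 := hp.two_le
  nlinarith

/-- The multiplier is determined. -/
theorem sq_unique {N n m m' : ℕ} (hm : m.Coprime N) (hm' : m'.Coprime N) (h1 : 1 ≤ m)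
    (h1' : 1 ≤ m') (hd : m ^ 2 ∣ n) (hd' : m' ^ 2 ∣ n) (ht : n / m ^ 2 ∈ Sf N)
    (ht' : n / m' ^ 2 ∈ Sf N) : m = m' := by
  have h2 : n = n / m ^ 2 * m ^ 2 := (Nat.div_mul_cancel hd).symm
  have h3 : n = n / m' ^ 2 * m' ^ 2 := (Nat.div_mul_cancel hd').symm
  refine Nat.dvd_antisymm (dvd_of_sq ht' hm h1 h1' ?_) (dvd_of_sq ht hm' h1' h1 ?_)
  · rw [← h3]
    exact hd
  · rw [← h2]
    exact hd'

/-- The indicator function of `Sf N` as a sum of the Moebius function. -/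
theorem sum_moebius (N : ℕ) {n : ℕ} (hn : 1 ≤ n) [DecidablePred (· ∈ Sf N)] :
    ∑ m ∈ (range (n + 1)).filter (fun m => 1 ≤ m ∧ m.Coprime N ∧ m ^ 2 ∣ n),
      ((ArithmeticFunction.moebius m : ℤ) : ℝ) = if n ∈ Sf N then 1 else 0 := by
  obtain ⟨t, k, ht, hk, hkN, rfl⟩ := exists_sq N hn
  have h1 : (range (t * k ^ 2 + 1)).filter (fun m => 1 ≤ m ∧ m.Coprime N ∧ m ^ 2 ∣ t * k ^ 2) =
      k.divisors := by
    ext m
    rw [Finset.mem_filter, Finset.mem_range, Nat.mem_divisors]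
    constructor
    · rintro ⟨-, h2, h3, h4⟩
      exact ⟨dvd_of_sq ht h3 h2 hk h4, by omega⟩
    · rintro ⟨h2, -⟩
      have h3 : m ^ 2 ∣ t * k ^ 2 := (pow_dvd_pow_of_dvd h2 2).mul_left t
      have h4 := Nat.le_of_dvd hn h3
      have h5 : m ≤ m ^ 2 := Nat.le_self_pow (by norm_num) m
      exact ⟨by omega, Nat.pos_of_dvd_of_pos h2 hk, Nat.Coprime.coprime_dvd_left h2 hkN, h3⟩
  rw [h1]
  have h2 : (∑ m ∈ k.divisors, ArithmeticFunction.moebius m : ℤ) = if k = 1 then 1 else 0 := by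
    have h3 := congrFun (congrArg (fun f : ArithmeticFunction ℤ => (f : ℕ → ℤ))
      ArithmeticFunction.coe_zeta_mul_moebius) k
    rw [ArithmeticFunction.coe_zeta_mul_apply, ArithmeticFunction.one_apply] at h3
    exact h3
  have h3 : (t * k ^ 2 ∈ Sf N) ↔ k = 1 := by
    constructor
    · intro h4
      by_contra h5
      obtain ⟨p, hp, hpk⟩ := Nat.exists_prime_and_dvd h5
      have hpN : ¬ p ∣ N := fun h6 => hp.one_lt.ne' (Nat.eq_one_of_dvd_coprimes hkN hpk h6)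
      exact h4.2 p hp hpN ((pow_dvd_pow_of_dvd hpk 2).mul_left t)
    · rintro rfl
      simpa using ht
  rw [← Int.cast_sum, h2]
  by_cases h4 : k = 1
  · rw [if_pos h4, if_pos (h3.2 h4), Int.cast_one]
  · rw [if_neg h4, if_neg (fun h5 => h4 (h3.1 h5)), Int.cast_zero]

end Pool.Agent.H.MP_656320_nt
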