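import Pool.Agent.H.MP_656320_nt.Mn
import Pool.Agent.H.MP_656320_nt.Hk

/-!
# Mean values over all indices and over the indices in `Sf N`
-/

namespace Pool.Agent.H.MP_656320_nt

open Filter Topology Finset

/-- Periodic weights (invariant under squares of units if `sq` is true). -/
def Adm (sq : Prop) (w : ℕ → ℝ) : Prop :=
  ∃ q, 1 ≤ q ∧ (∀ n, w (n + q) = w n) ∧ (sq → ∀ n u, u.Coprime q → w (n * u ^ 2) = w n)

/-- The mean value exists (and is `0` if `z` is true). -/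
def Lim (z : Prop) (F : ℕ → ℝ) : Prop := ∃ c, Mean F c ∧ (z → c = 0)

/-- The indicator function. -/
noncomputable def ind (A : Set ℕ) (n : ℕ) : ℝ := Set.indicator A (fun _ => (1 : ℝ)) n

theorem ind_of_mem {A : Set ℕ} {n : ℕ} (h : n ∈ A) : ind A n = 1 := Set.indicator_of_mem h _

theorem ind_of_not {A : Set ℕ} {n : ℕ} (h : n ∉ A) : ind A n = 0 := Set.indicator_of_notMem h _

theorem ind_abs (A : Set ℕ) (n : ℕ) : |ind A n| ≤ 1 := by
  by_cases h : n ∈ A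
  · rw [ind_of_mem h, abs_one]
  · rw [ind_of_not h, abs_zero]
    exact zero_le_one

theorem Lim.congr {z : Prop} {F F' : ℕ → ℝ} (h : Lim z F) (hF : ∀ n, 1 ≤ n → F n = F' n) :
    Lim z F' := by
  obtain ⟨c, h1, h2⟩ := h
  exact ⟨c, h1.congr hF, h2⟩

theorem Lim.smul {z : Prop} {F : ℕ → ℝ} (k : ℝ) (h : Lim z F) : Lim z (fun n => k * F n) := by
  obtain ⟨c, h1, h2⟩ := h
  exact ⟨k * c, h1.smul k, fun hz => by rw [h2 hz, mul_zero]⟩

theorem Lim.sum {z : Prop} {ι : Type} (s : Finset ι) {F : ι → ℕ → ℝ}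
    (h : ∀ i ∈ s, Lim z (F i)) : Lim z (fun n => ∑ i ∈ s, F i n) := by
  classical
  have h1 : ∀ i, ∃ c, i ∈ s → Mean (F i) c ∧ (z → c = 0) := by
    intro i
    by_cases hi : i ∈ s
    · obtain ⟨c, hc⟩ := h i hi
      exact ⟨c, fun _ => hc⟩
    · exact ⟨0, fun h2 => absurd h2 hi⟩
  choose c hc using h1
  exact ⟨∑ i ∈ s, c i, Mean.sum s fun i hi => (hc i hi).1,
    fun hz => Finset.sum_eq_zero fun i hi => (hc i hi).2 hz⟩

theorem Lim.dil {z : Prop} {F : ℕ → ℝ} {d : ℕ} (hd : 1 ≤ d) (h : Lim z F) :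
    Lim z (fun n => if d ∣ n then F (n / d) else 0) := by
  obtain ⟨c, h1, h2⟩ := h
  exact ⟨c / d, h1.dil hd, fun hz => by rw [h2 hz, zero_div]⟩

theorem Lim.tan {z : Prop} {h : ℕ → ℕ → ℝ} {H : ℕ → ℝ} (h1 : ∀ m n, |h m n| ≤ 1)
    (h2 : ∀ m n, h m n ≠ 0 → 1 ≤ m ∧ m ^ 2 ∣ n) (h3 : ∀ m, Lim z (h m))
    (hH : ∀ n, 1 ≤ n → H n = ∑ m ∈ range (n + 1), h m n) : Lim z H := by
  choose c hc using h3
  refine ⟨∑' m, c m, Mean.tan h1 h2 (fun m => (hc m).1) hH, fun hz => ?_⟩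
  have h4 : c = fun _ => 0 := funext fun m => (hc m).2 hz
  rw [h4, tsum_zero]

private theorem Eqv_per {w : ℕ → ℝ} {q : ℕ} (h : ∀ n, w (n + q) = w n) (k n : ℕ) :
    w (n + k * q) = w n := by
  induction k with
  | zero => simp
  | succ k ih => rw [Nat.succ_mul, ← add_assoc, h, ih]

theorem Adm.mul {sq : Prop} {w w' : ℕ → ℝ} (h : Adm sq w) (h' : Adm sq w') :
    Adm sq (fun n => w n * w' n) := by
  obtain ⟨q, hq, h1, h2⟩ := h
  obtain ⟨q', hq', h1', h2'⟩ := h'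
  refine ⟨q * q', Nat.mul_pos hq hq', fun n => ?_, fun hs n u hu => ?_⟩
  · have h3 := Eqv_per h1 q' n
    have h4 := Eqv_per h1' q n
    show w (n + q * q') * w' (n + q * q') = _
    rw [h4, mul_comm q q', h3]
  · show w (n * u ^ 2) * w' (n * u ^ 2) = _
    rw [h2 hs n u (Nat.Coprime.coprime_dvd_right (dvd_mul_right q q') hu),
      h2' hs n u (Nat.Coprime.coprime_dvd_right (dvd_mul_left q' q) hu)]

theorem Adm.dvd (sq : Prop) {m : ℕ} (hm : 1 ≤ m) : Adm sq (ind {n | m ^ 2 ∣ n}) := by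
  have h0 : ∀ n n', (m ^ 2 ∣ n ↔ m ^ 2 ∣ n') → ind {n | m ^ 2 ∣ n} n = ind {n | m ^ 2 ∣ n} n' := by
    intro n n' h
    by_cases h1 : m ^ 2 ∣ n
    · rw [ind_of_mem (A := {n | m ^ 2 ∣ n}) h1, ind_of_mem (A := {n | m ^ 2 ∣ n}) (h.1 h1)]
    · rw [ind_of_not (A := {n | m ^ 2 ∣ n}) h1,
        ind_of_not (A := {n | m ^ 2 ∣ n}) (fun h2 => h1 (h.2 h2))]
  refine ⟨m ^ 2, Nat.one_le_pow _ _ hm, fun n => h0 _ _ ?_, fun _ n u hu => h0 _ _ ?_⟩
  · exact (Nat.dvd_add_iff_left dvd_rfl).symm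
  · exact ⟨fun h => ((hu.symm.pow_right 2).dvd_of_dvd_mul_right h), fun h => h.mul_right _⟩

theorem Adm.comp {sq : Prop} {w : ℕ → ℝ} (h : Adm sq w) (m : ℕ) :
    Adm sq (fun n => w (n * m ^ 2)) := by
  obtain ⟨q, hq, h1, h2⟩ := h
  refine ⟨q, hq, fun n => ?_, fun hs n u hu => ?_⟩
  · show w ((n + q) * m ^ 2) = _
    have h3 : (n + q) * m ^ 2 = n * m ^ 2 + m ^ 2 * q := by ring
    rw [h3, Eqv_per h1]
  · show w (n * u ^ 2 * m ^ 2) = _
    have h3 : n * u ^ 2 * m ^ 2 = n * m ^ 2 * u ^ 2 := by ring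
    rw [h3, h2 hs _ _ hu]

theorem Adm.map {sq : Prop} {w : ℕ → ℝ} (h : Adm sq w) (e : ℝ → ℝ) :
    Adm sq (fun n => e (w n)) := by
  obtain ⟨q, hq, h1, h2⟩ := h
  exact ⟨q, hq, fun n => congrArg e (h1 n), fun hs n u hu => congrArg e (h2 hs n u hu)⟩

/-- Real weights from sets. -/
theorem Lim.of_ind {sq z : Prop} {F : ℕ → ℝ}
    (h : ∀ A, Adm sq (ind A) → Lim z (fun n => ind A n * F n)) {w : ℕ → ℝ} (hw : Adm sq w) :
    Lim z (fun n => w n * F n) := by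
  classical
  have hw' := hw
  obtain ⟨q, hq, h1, -⟩ := hw
  have h2 : ∀ n, w n = w (n % q) := by
    intro n
    have h3 := Eqv_per h1 (n / q) (n % q)
    rw [mul_comm, Nat.mod_add_div] at h3
    exact h3
  have h3 : ∀ v : ℝ, Adm sq (ind {n | w n = v}) := by
    intro v
    obtain ⟨q', hq', h4, h5⟩ := hw'.map (fun x => if x = v then (1 : ℝ) else 0)
    have h6 : ∀ n, ind {n | w n = v} n = if w n = v then (1 : ℝ) else 0 := fun n => by
      by_cases h7 : w n = v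
      · rw [ind_of_mem (A := {n | w n = v}) h7, if_pos h7]
      · rw [ind_of_not (A := {n | w n = v}) h7, if_neg h7]
    exact ⟨q', hq', fun n => by rw [h6, h6]; exact h4 n,
      fun hs n u hu => by rw [h6, h6]; exact h5 hs n u hu⟩
  have h4 := Lim.sum (z := z) ((range q).image w)
    (F := fun v n => v * (ind {n | w n = v} n * F n)) fun v _ => (h _ (h3 v)).smul v
  refine h4.congr fun n _ => ?_
  have h5 : w n ∈ (range q).image w := by
    rw [h2 n]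
    exact Finset.mem_image_of_mem _ (Finset.mem_range.2 (Nat.mod_lt n hq))
  rw [Finset.sum_eq_single (w n)]
  · rw [ind_of_mem (A := {k | w k = w n}) rfl, one_mul]
  · intro v _ hv
    rw [ind_of_not (A := {k | w k = v}) (fun h6 => hv h6.symm), zero_mul, mul_zero]
  · intro h6
    exact absurd h5 h6

/-- From all indices to the indices in `Sf N`. -/
theorem lim_sf (N : ℕ) {sq z : Prop} {E : ℕ → ℝ} (hE : ∀ n, |E n| ≤ 1)
    (h : ∀ w, Adm sq w → Lim z (fun n => w n * E n)) {A : Set ℕ} (hA : Adm sq (ind A)) :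
    Lim z (fun n => ind A n * (ind (Sf N) n * E n)) := by
  classical
  refine Lim.tan (h := fun m n => if 1 ≤ m ∧ m.Coprime N ∧ m ^ 2 ∣ n then
    ((ArithmeticFunction.moebius m : ℤ) : ℝ) * (ind A n * E n) else 0) ?_ ?_ ?_ ?_
  · intro m n
    show |if 1 ≤ m ∧ m.Coprime N ∧ m ^ 2 ∣ n then _ else (0 : ℝ)| ≤ 1
    split_ifs
    · rw [abs_mul, abs_mul]
      have h1 : |((ArithmeticFunction.moebius m : ℤ) : ℝ)| ≤ 1 := by
        have h2 := ArithmeticFunction.abs_moebius_le_one (n := m)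
        exact_mod_cast h2
      have h2 := ind_abs A n
      have h3 := hE n
      have h4 : |ind A n| * |E n| ≤ 1 := mul_le_one₀ h2 (abs_nonneg _) h3
      exact mul_le_one₀ h1 (by positivity) h4
    · rw [abs_zero]
      exact zero_le_one
  · intro m n h1
    by_contra h2
    refine h1 (if_neg fun h3 => h2 ⟨h3.1, h3.2.2⟩)
  · intro m
    by_cases hm : 1 ≤ m ∧ m.Coprime N
    · have h1 := (h _ (hA.mul (Adm.dvd sq hm.1))).smul ((ArithmeticFunction.moebius m : ℤ) : ℝ)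
      refine h1.congr fun n _ => ?_
      by_cases h2 : m ^ 2 ∣ n
      · rw [if_pos ⟨hm.1, hm.2, h2⟩, ind_of_mem (A := {n | m ^ 2 ∣ n}) h2]
        ring
      · rw [if_neg (fun h3 => h2 h3.2.2), ind_of_not (A := {n | m ^ 2 ∣ n}) h2]
        ring
    · have h1 : Lim z (fun _ => 0) := ⟨0, Mean.zero, fun _ => rfl⟩
      exact h1.congr fun n _ => (if_neg fun h2 => hm ⟨h2.1, h2.2.1⟩).symm
  · intro n hn
    rw [← Finset.sum_filter, ← Finset.sum_mul, sum_moebius N hn]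
    by_cases h1 : n ∈ Sf N
    · rw [if_pos h1, ind_of_mem h1]
      ring
    · rw [if_neg h1, ind_of_not h1]
      ring

/-- From the indices in `Sf N` to all indices. -/
theorem lim_all {l N : ℕ} {χ lam : ℕ → ℂ} {a : ℕ → ℝ} (ha : Hecke l N χ lam a) {sq z : Prop}
    {e : ℝ → ℝ} (he : ∀ x y, e (x * y) = e x * e y) (hb : ∀ x, |e x| ≤ 1)
    (h : ∀ w, Adm sq w → Lim z (fun n => w n * (ind (Sf N) n * e (a n)))) {A : Set ℕ}
    (hA : Adm sq (ind A)) : Lim z (fun n => ind A n * e (a n)) := by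
  classical
  refine Lim.tan (h := fun m n => if (1 ≤ m ∧ m.Coprime N ∧ m ^ 2 ∣ n) ∧ n / m ^ 2 ∈ Sf N then
    ind A n * e (a n) else 0) ?_ ?_ ?_ ?_
  · intro m n
    show |if (1 ≤ m ∧ m.Coprime N ∧ m ^ 2 ∣ n) ∧ n / m ^ 2 ∈ Sf N then _ else (0 : ℝ)| ≤ 1
    split_ifs
    · rw [abs_mul]
      exact mul_le_one₀ (ind_abs A n) (abs_nonneg _) (hb _)
    · rw [abs_zero]
      exact zero_le_one
  · intro m n h1
    by_contra h2
    exact h1 (if_neg fun h3 => h2 ⟨h3.1.1, h3.1.2.2⟩)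
  · intro m
    by_cases hm : 1 ≤ m ∧ m.Coprime N
    · obtain ⟨G, hG1, hG2, hG3⟩ := exists_G ha hm.1 hm.2
      have hG : Adm sq G := ⟨m, hm.1, hG1, fun _ => hG2⟩
      have h1 := h _ ((hA.comp m).mul (hG.map e))
      refine (h1.dil (Nat.one_le_pow 2 m hm.1)).congr fun n hn => ?_
      by_cases h2 : m ^ 2 ∣ n
      · rw [if_pos h2]
        show ind A (n / m ^ 2 * m ^ 2) * e (G (n / m ^ 2)) *
          (ind (Sf N) (n / m ^ 2) * e (a (n / m ^ 2))) = _
        rw [Nat.div_mul_cancel h2]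
        by_cases h3 : n / m ^ 2 ∈ Sf N
        · rw [if_pos ⟨⟨hm.1, hm.2, h2⟩, h3⟩, ind_of_mem h3, one_mul, mul_assoc, ← he,
            ← hG3 _ h3.1 ?_, Nat.div_mul_cancel h2]
          intro p hp hpm
          exact h3.2 p hp fun h4 => hp.one_lt.ne' (Nat.eq_one_of_dvd_coprimes hm.2 hpm h4)
        · rw [if_neg (fun h4 => h3 h4.2), ind_of_not h3]
          ring
      · rw [if_neg h2, if_neg (fun h3 => h2 h3.1.2.2)]
    · have h1 : Lim z (fun _ => 0) := ⟨0, Mean.zero, fun _ => rfl⟩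
      exact h1.congr fun n _ => (if_neg fun h2 => hm ⟨h2.1.1, h2.1.2.1⟩).symm
  · intro n hn
    obtain ⟨t, k, ht, hk, hkN, h1⟩ := exists_sq N hn
    have hkd : k ^ 2 ∣ n := ⟨t, by rw [h1, mul_comm]⟩
    have hkt : n / k ^ 2 = t := by
      rw [h1]
      exact Nat.mul_div_cancel _ (pow_pos hk 2)
    have hkn : k ∈ range (n + 1) := by
      have h2 := Nat.le_of_dvd hn hkd
      have h3 : k ≤ k ^ 2 := Nat.le_self_pow (by norm_num) k
      exact Finset.mem_range.2 (by omega)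
    rw [Finset.sum_eq_single_of_mem k hkn]
    · rw [if_pos ⟨⟨hk, hkN, hkd⟩, by rw [hkt]; exact ht⟩]
    · intro m _ hm
      refine if_neg fun h2 => hm ?_
      exact sq_unique h2.1.2.1 hkN h2.1.1 hk h2.1.2.2 hkd h2.2 (by rw [hkt]; exact ht)

/-- The equivalence. -/
theorem lim_iff {l N : ℕ} {χ lam : ℕ → ℂ} {a : ℕ → ℝ} (ha : Hecke l N χ lam a) (sq z : Prop)
    {e : ℝ → ℝ} (he : ∀ x y, e (x * y) = e x * e y) (hb : ∀ x, |e x| ≤ 1) :
    (∀ A, Adm sq (ind A) → Lim z (fun n => ind A n * e (a n))) ↔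
      ∀ A, Adm sq (ind A) → Lim z (fun n => ind A n * (ind (Sf N) n * e (a n))) := by
  constructor
  · intro h A hA
    exact lim_sf N (fun n => hb (a n)) (fun w hw => Lim.of_ind h hw) hA
  · intro h A hA
    exact lim_all ha he hb (fun w hw => Lim.of_ind h hw) hA

end Pool.Agent.H.MP_656320_nt
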