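import Pool.Agent.H.MP_656320_nt.Eqv

/-!
# Squarefree indices

Sums over the divisors whose prime factors divide the level.
-/

namespace Pool.Agent.H.MP_656320_nt

open Filter Topology Finset

/-- All prime factors divide `N`. -/
def Fac (N : ℕ) : Set ℕ := Nat.factoredNumbers N.primeFactors

theorem mem_Fac {N u : ℕ} (hN : 1 ≤ N) :
    u ∈ Fac N ↔ 1 ≤ u ∧ ∀ p : ℕ, p.Prime → p ∣ u → p ∣ N := by
  unfold Fac
  rw [Nat.mem_factoredNumbers]
  constructor
  · rintro ⟨h1, h2⟩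
    refine ⟨Nat.one_le_iff_ne_zero.2 h1, fun p hp hpu => ?_⟩
    exact Nat.dvd_of_mem_primeFactors (h2 p ((Nat.mem_primeFactorsList h1).2 ⟨hp, hpu⟩))
  · rintro ⟨h1, h2⟩
    refine ⟨Nat.one_le_iff_ne_zero.1 h1, fun p hp => ?_⟩
    have h3 := (Nat.mem_primeFactorsList (Nat.one_le_iff_ne_zero.1 h1)).1 hp
    exact Nat.mem_primeFactors.2 ⟨h3.1, h2 p h3.1 h3.2, Nat.one_le_iff_ne_zero.1 hN⟩

/-- The sum of the reciprocals converges. -/
theorem summable_Fac (N : ℕ) : Summable fun u : ℕ => Set.indicator (Fac N) (fun u => 1 / (u : ℝ)) u := by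
  let f : ℕ →* ℝ :=
    { toFun := fun n => ((n : ℝ))⁻¹
      map_one' := by simp
      map_mul' := fun m n => by push_cast; exact mul_inv _ _ }
  have h1 : ∀ {p : ℕ}, p.Prime → ‖f p‖ < 1 := by
    intro p hp
    show ‖((p : ℝ))⁻¹‖ < 1
    rw [norm_inv, Real.norm_natCast]
    exact inv_lt_one_of_one_lt₀ (by exact_mod_cast hp.one_lt)
  have h2 := (EulerProduct.summable_and_hasSum_factoredNumbers_prod_filter_prime_geometric h1
    N.primeFactors).1
  have h3 : Summable (fun u : Fac N => 1 / ((u : ℕ) : ℝ)) := by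
    refine h2.congr fun u => ?_
    show ‖(((u : ℕ) : ℝ))⁻¹‖ = 1 / ((u : ℕ) : ℝ)
    rw [norm_inv, Real.norm_natCast, one_div]
  exact (summable_subtype_iff_indicator (f := fun u : ℕ => 1 / (u : ℝ))).1 h3

private theorem Fac_card {d : ℕ} (hd : 1 ≤ d) (x : ℕ) :
    ∑ n ∈ Ioc 0 x, (if d ∣ n then (1 : ℝ) else 0) ≤ x / d := by
  rw [Finset.sum_boole, Nat.Ioc_filter_dvd_card_eq_div]
  exact Nat.cast_div_le

/-- Sums of sequences with mean values, which are supported on the multiples of the numbers in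
`Fac N`. -/
theorem Mean.fac {N : ℕ} (hN : 1 ≤ N) {h : ℕ → ℕ → ℝ} {H : ℕ → ℝ} {c : ℕ → ℝ}
    (h1 : ∀ m n, |h m n| ≤ 1)
    (h2 : ∀ m n, h m n ≠ 0 → m ∈ Fac N ∧ m ∣ n) (h3 : ∀ m, Mean (h m) (c m))
    (hH : ∀ n, 1 ≤ n → H n = ∑ m ∈ range (n + 1), h m n) : Mean H (∑' m, c m) := by
  have hb : ∀ x m : ℕ, |(∑ n ∈ Ioc 0 x, h m n) / x| ≤
      Set.indicator (Fac N) (fun u : ℕ => 1 / (u : ℝ)) m := by
    intro x m
    by_cases hm : m ∈ Fac N
    · rw [Set.indicator_of_mem hm]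
      have hm1 := ((mem_Fac hN).1 hm).1
      rcases Nat.eq_zero_or_pos x with rfl | hx
      · simp
      have hx0 : (0 : ℝ) < x := by exact_mod_cast hx
      have h4 : |∑ n ∈ Ioc 0 x, h m n| ≤ x / (m : ℝ) := by
        refine (Finset.abs_sum_le_sum_abs _ _).trans ((Finset.sum_le_sum fun n _ => ?_).trans
          (Fac_card hm1 x))
        by_cases h5 : h m n = 0
        · rw [h5, abs_zero]
          split_ifs <;> norm_num
        · rw [if_pos (h2 m n h5).2]
          exact h1 m n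
      rw [abs_div, abs_of_pos hx0, div_le_iff₀ hx0]
      refine h4.trans (le_of_eq ?_)
      ring
    · rw [Set.indicator_of_notMem hm]
      have h4 : ∀ n, h m n = 0 := fun n => by
        by_contra h5
        exact hm (h2 m n h5).1
      simp [h4]
  have h4 : Tendsto (fun x : ℕ => ∑' m : ℕ, (∑ n ∈ Ioc 0 x, h m n) / (x : ℝ)) atTop
      (𝓝 (∑' m, c m)) := by
    refine tendsto_tsum_of_dominated_convergence (summable_Fac N) (fun m => h3 m)
      (Eventually.of_forall fun x m => ?_)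
    rw [Real.norm_eq_abs]
    exact hb x m
  refine Tendsto.congr (fun x => ?_) h4
  rw [tsum_eq_sum (s := range (x + 1))]
  · rw [← Finset.sum_div, Finset.sum_comm]
    congr 1
    refine Finset.sum_congr rfl fun n hn => ?_
    obtain ⟨hn1, hn2⟩ := Finset.mem_Ioc.1 hn
    rw [hH n hn1]
    symm
    refine Finset.sum_subset (Finset.range_subset_range.2 (by omega)) fun m _ hm => ?_
    by_contra h5
    obtain ⟨h6, h7⟩ := h2 m n h5
    have h8 := Nat.le_of_dvd hn1 h7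
    exact hm (Finset.mem_range.2 (by omega))
  · intro m hm
    have h5 : ∑ n ∈ Ioc 0 x, h m n = 0 := by
      refine Finset.sum_eq_zero fun n hn => ?_
      by_contra h5
      obtain ⟨hn1, hn2⟩ := Finset.mem_Ioc.1 hn
      obtain ⟨h6, h7⟩ := h2 m n h5
      have h8 := Nat.le_of_dvd hn1 h7
      exact hm (Finset.mem_range.2 (by omega))
    rw [h5, zero_div]

theorem Lim.fac {N : ℕ} (hN : 1 ≤ N) {z : Prop} {h : ℕ → ℕ → ℝ} {H : ℕ → ℝ}
    (h1 : ∀ m n, |h m n| ≤ 1) (h2 : ∀ m n, h m n ≠ 0 → m ∈ Fac N ∧ m ∣ n)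
    (h3 : ∀ m, Lim z (h m)) (hH : ∀ n, 1 ≤ n → H n = ∑ m ∈ range (n + 1), h m n) : Lim z H := by
  choose c hc using h3
  refine ⟨∑' m, c m, Mean.fac hN h1 h2 (fun m => (hc m).1) hH, fun hz => ?_⟩
  have h4 : c = fun _ => 0 := funext fun m => (hc m).2 hz
  rw [h4, tsum_zero]

/-- Every positive integer is the product of a number in `Fac N` and of a number prime to `N`. -/
theorem exists_fac {N : ℕ} (hN : 1 ≤ N) {n : ℕ} (hn : 1 ≤ n) :
    ∃ u t, u ∈ Fac N ∧ 1 ≤ t ∧ t.Coprime N ∧ n = u * t := by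
  classical
  have h1 : (1 : ℕ) ∈ Fac N ∧ 1 ∣ n :=
    ⟨(mem_Fac hN).2 ⟨le_rfl, fun p hp h => absurd (Nat.dvd_one.1 h) hp.one_lt.ne'⟩, one_dvd n⟩
  set u := Nat.findGreatest (fun u => u ∈ Fac N ∧ u ∣ n) n with hu
  have h2 : u ∈ Fac N ∧ u ∣ n :=
    Nat.findGreatest_spec (P := fun u => u ∈ Fac N ∧ u ∣ n) hn h1
  obtain ⟨t, ht⟩ := h2.2
  have hu0 := ((mem_Fac hN).1 h2.1).1
  have ht0 : 1 ≤ t := by
    by_contra h5
    have h6 : t = 0 := by omega
    rw [h6, mul_zero] at ht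
    omega
  refine ⟨u, t, h2.1, ht0, ?_, ht⟩
  by_contra h3
  obtain ⟨p, hp, hpt, hpN⟩ := Nat.Prime.not_coprime_iff_dvd.1 h3
  have h4 : u * p ∈ Fac N ∧ u * p ∣ n := by
    refine ⟨(mem_Fac hN).2 ⟨Nat.mul_pos hu0 hp.pos, fun q hq hqd => ?_⟩, ?_⟩
    · rcases (Nat.Prime.dvd_mul hq).1 hqd with h5 | h5
      · exact ((mem_Fac hN).1 h2.1).2 q hq h5
      · rw [(Nat.prime_dvd_prime_iff_eq hq hp).1 h5]
        exact hpN
    · rw [ht]
      exact mul_dvd_mul_left u hpt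
  have h6 : u * p ≤ n := Nat.le_of_dvd hn h4.2
  have h7 : u * p ≤ u := Nat.le_findGreatest h6 h4
  have h8 := hp.two_le
  nlinarith

private theorem Fac_cop {N u t : ℕ} (hN : 1 ≤ N) (hu : u ∈ Fac N) (ht : t.Coprime N) :
    u.Coprime t := by
  by_contra h3
  obtain ⟨p, hp, hpu, hpt⟩ := Nat.Prime.not_coprime_iff_dvd.1 h3
  exact hp.one_lt.ne' (Nat.eq_one_of_dvd_coprimes ht hpt (((mem_Fac hN).1 hu).2 p hp hpu))

private theorem Fac_dvd {N n u u' : ℕ} (hN : 1 ≤ N) (hu : u ∈ Fac N) (hd : u ∣ n) (hd' : u' ∣ n)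
    (ht' : (n / u').Coprime N) : u ∣ u' := by
  have h1 : u ∣ u' * (n / u') := by
    rw [Nat.mul_div_cancel' hd']
    exact hd
  exact (Fac_cop hN hu ht').dvd_of_dvd_mul_right h1

theorem fac_unique {N n u u' : ℕ} (hN : 1 ≤ N) (hu : u ∈ Fac N) (hu' : u' ∈ Fac N) (hd : u ∣ n)
    (hd' : u' ∣ n) (ht : (n / u).Coprime N) (ht' : (n / u').Coprime N) : u = u' :=
  Nat.dvd_antisymm (Fac_dvd hN hu hd hd' ht') (Fac_dvd hN hu' hd' hd ht)

theorem mem_Sf_fac {N u t : ℕ} (hN : 1 ≤ N) (hu : u ∈ Fac N) (ht1 : 1 ≤ t)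
    (ht : t.Coprime N) : u * t ∈ Sf N ↔ Squarefree t := by
  rw [Nat.squarefree_iff_prime_squarefree]
  constructor
  · rintro ⟨-, h1⟩ p hp hpt
    have hpN : ¬ p ∣ N := fun h2 =>
      hp.one_lt.ne' (Nat.eq_one_of_dvd_coprimes ht ((dvd_mul_right p p).trans hpt) h2)
    exact h1 p hp hpN (by rw [sq]; exact hpt.mul_left u)
  · intro h1
    refine ⟨Nat.mul_pos ((mem_Fac hN).1 hu).1 ht1, fun p hp hpN hd => h1 p hp ?_⟩
    have hpu : (p ^ 2).Coprime u :=
      Nat.Coprime.pow_left 2 ((Nat.Prime.coprime_iff_not_dvd hp).2 fun h2 =>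
        hpN (((mem_Fac hN).1 hu).2 p hp h2))
    rw [← sq]
    exact hpu.dvd_of_dvd_mul_left hd

theorem Sf_one : Sf 1 = {n | Squarefree n} := by
  ext n
  show _ ↔ Squarefree n
  rw [Nat.squarefree_iff_prime_squarefree]
  constructor
  · rintro ⟨-, h1⟩ p hp hd
    exact h1 p hp (fun h2 => hp.one_lt.ne' (Nat.dvd_one.1 h2)) (by rw [sq]; exact hd)
  · intro h1
    refine ⟨?_, fun p hp _ hd => h1 p hp (by rw [← sq]; exact hd)⟩
    by_contra h2
    have h3 : n = 0 := by omega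
    exact h1 2 Nat.prime_two (by rw [h3]; exact dvd_zero _)

theorem Adm.scale {sq : Prop} {w : ℕ → ℝ} (h : Adm sq w) (u : ℕ) :
    Adm sq (fun n => w (u * n)) := by
  obtain ⟨q, hq, h1, h2⟩ := h
  have h0 : ∀ k n, w (n + k * q) = w n := by
    intro k
    induction k with
    | zero => intro n; simp
    | succ k ih => intro n; rw [Nat.succ_mul, ← add_assoc, h1, ih]
  refine ⟨q, hq, fun n => ?_, fun hs n v hv => ?_⟩
  · show w (u * (n + q)) = _
    rw [mul_add, h0]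
  · show w (u * (n * v ^ 2)) = _
    rw [← mul_assoc, h2 hs _ _ hv]

theorem Adm.cop (sq : Prop) {N : ℕ} (hN : 1 ≤ N) : Adm sq (ind {n | n.Coprime N}) := by
  have h0 : ∀ n n', (n.Coprime N ↔ n'.Coprime N) →
      ind {n | n.Coprime N} n = ind {n | n.Coprime N} n' := by
    intro n n' h
    by_cases h1 : n.Coprime N
    · rw [ind_of_mem (A := {n | n.Coprime N}) h1, ind_of_mem (A := {n | n.Coprime N}) (h.1 h1)]
    · rw [ind_of_not (A := {n | n.Coprime N}) h1,
        ind_of_not (A := {n | n.Coprime N}) (fun h2 => h1 (h.2 h2))]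
  refine ⟨N, hN, fun n => h0 _ _ ?_, fun _ n u hu => h0 _ _ ?_⟩
  · exact Nat.coprime_add_self_left
  · exact ⟨fun h => Nat.Coprime.coprime_dvd_left (dvd_mul_right n (u ^ 2)) h,
      fun h => Nat.Coprime.mul_left h (Nat.Coprime.pow_left 2 hu)⟩

/-- From the squarefree indices to the indices in `Sf N`. -/
theorem lim_fac {N : ℕ} (hN : 1 ≤ N) {a : ℕ → ℝ} {sq z : Prop}
    {e : ℝ → ℝ} (hb : ∀ x, |e x| ≤ 1)
    (h : ∀ u ∈ Fac N, ∀ w, Adm sq w →
      Lim z (fun n => w n * (ind {n | Squarefree n} n * e (a (u * n))))) {A : Set ℕ}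
    (hA : Adm sq (ind A)) : Lim z (fun n => ind A n * (ind (Sf N) n * e (a n))) := by
  classical
  refine Lim.fac hN (h := fun u n => if u ∈ Fac N ∧ u ∣ n ∧ (n / u).Coprime N ∧
    Squarefree (n / u) then ind A n * e (a n) else 0) ?_ ?_ ?_ ?_
  · intro u n
    show |if u ∈ Fac N ∧ u ∣ n ∧ (n / u).Coprime N ∧ Squarefree (n / u) then _ else (0 : ℝ)| ≤ 1
    split_ifs
    · rw [abs_mul]
      exact mul_le_one₀ (ind_abs A n) (abs_nonneg _) (hb _)
    · rw [abs_zero]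
      exact zero_le_one
  · intro u n h1
    by_contra h2
    exact h1 (if_neg fun h3 => h2 ⟨h3.1, h3.2.1⟩)
  · intro u
    by_cases hu : u ∈ Fac N
    · have hu1 := ((mem_Fac hN).1 hu).1
      have h1 := h u hu _ ((hA.scale u).mul (Adm.cop sq hN))
      refine (h1.dil hu1).congr fun n hn => ?_
      by_cases h2 : u ∣ n
      · rw [if_pos h2]
        show ind A (u * (n / u)) * ind {n | n.Coprime N} (n / u) *
          (ind {n | Squarefree n} (n / u) * e (a (u * (n / u)))) = _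
        rw [Nat.mul_div_cancel' h2]
        by_cases h3 : (n / u).Coprime N
        · by_cases h4 : Squarefree (n / u)
          · rw [if_pos ⟨hu, h2, h3, h4⟩, ind_of_mem (A := {n | n.Coprime N}) h3,
              ind_of_mem (A := {n | Squarefree n}) h4]
            ring
          · rw [if_neg (fun h5 => h4 h5.2.2.2), ind_of_not (A := {n | Squarefree n}) h4]
            ring
        · rw [if_neg (fun h5 => h3 h5.2.2.1), ind_of_not (A := {n | n.Coprime N}) h3]
          ring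
      · rw [if_neg h2, if_neg (fun h3 => h2 h3.2.1)]
    · have h1 : Lim z (fun _ => 0) := ⟨0, Mean.zero, fun _ => rfl⟩
      exact h1.congr fun n _ => (if_neg fun h2 => hu h2.1).symm
  · intro n hn
    obtain ⟨u, t, hu, ht1, ht, h1⟩ := exists_fac hN hn
    have hud : u ∣ n := ⟨t, h1⟩
    have hut : n / u = t := by
      rw [h1]
      exact Nat.mul_div_cancel_left _ ((mem_Fac hN).1 hu).1
    have hun : u ∈ range (n + 1) := by
      have h2 := Nat.le_of_dvd hn hud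
      exact Finset.mem_range.2 (by omega)
    rw [Finset.sum_eq_single_of_mem u hun]
    · have h2 := mem_Sf_fac hN hu ht1 ht
      rw [← h1] at h2
      by_cases h3 : Squarefree t
      · rw [if_pos ⟨hu, hud, by rw [hut]; exact ht, by rw [hut]; exact h3⟩,
          ind_of_mem (h2.2 h3), one_mul]
      · rw [if_neg (fun h4 => h3 (by rw [← hut]; exact h4.2.2.2)),
          ind_of_not (fun h4 => h3 (h2.1 h4))]
        ring
    · intro v _ hv
      refine if_neg fun h2 => hv ?_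
      exact fac_unique hN h2.1 hu h2.2.1 hud h2.2.2.1 (by rw [hut]; exact ht)

/-- The inverse of a dilation. -/
theorem Lim.undil {z : Prop} {F : ℕ → ℝ} {d : ℕ} (hd : 1 ≤ d)
    (h : Lim z (fun n => if d ∣ n then F n else 0)) : Lim z (fun n => F (d * n)) := by
  obtain ⟨c, h1, h2⟩ := h
  refine ⟨d * c, ?_, fun hz => by rw [h2 hz, mul_zero]⟩
  have h3 : Tendsto (fun x : ℕ => d * x) atTop atTop :=
    tendsto_id.const_mul_atTop' (by omega)
  have h4 := (h1.comp h3).const_mul (d : ℝ)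
  refine Tendsto.congr (fun x => ?_) h4
  show (d : ℝ) * ((∑ n ∈ Ioc 0 (d * x), if d ∣ n then F n else 0) / ((d * x : ℕ) : ℝ)) =
    (∑ n ∈ Ioc 0 x, F (d * n)) / x
  have h5 : ∑ n ∈ Ioc 0 (d * x), (if d ∣ n then F n else 0) = ∑ n ∈ Ioc 0 x, F (d * n) := by
    rw [← Finset.sum_filter]
    refine Finset.sum_bij' (fun n _ => n / d) (fun t _ => d * t) ?_ ?_ ?_ ?_ ?_
    · intro n hn
      obtain ⟨h1, h2⟩ := Finset.mem_filter.1 hn
      obtain ⟨h3, h4⟩ := Finset.mem_Ioc.1 h1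
      refine Finset.mem_Ioc.2 ⟨Nat.div_pos (Nat.le_of_dvd h3 h2) hd, ?_⟩
      exact Nat.div_le_of_le_mul h4
    · intro t ht
      obtain ⟨h3, h4⟩ := Finset.mem_Ioc.1 ht
      exact Finset.mem_filter.2 ⟨Finset.mem_Ioc.2 ⟨Nat.mul_pos hd h3,
        Nat.mul_le_mul_left d h4⟩, dvd_mul_right d t⟩
    · intro n hn
      exact Nat.mul_div_cancel' (Finset.mem_filter.1 hn).2
    · intro t ht
      exact Nat.mul_div_cancel_left t hd
    · intro n hn
      show F n = F (d * (n / d))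
      rw [Nat.mul_div_cancel' (Finset.mem_filter.1 hn).2]
  rw [h5]
  have hd0 : (d : ℝ) ≠ 0 := by
    have : d ≠ 0 := by omega
    exact_mod_cast this
  push_cast
  rw [mul_div_assoc', mul_comm (d : ℝ) (x : ℝ), mul_comm (d : ℝ), mul_div_mul_right _ _ hd0]

private theorem Fac_adm {sq : Prop} {A : Set ℕ} (hA : Adm sq (ind A)) {u : ℕ} (hu : 1 ≤ u) :
    Adm sq (ind {n | u ∣ n ∧ n / u ∈ A}) := by
  obtain ⟨q, hq, h1, h2⟩ := hA
  have h3 : ∀ n, ind {n | u ∣ n ∧ n / u ∈ A} n = if u ∣ n then ind A (n / u) else 0 := by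
    intro n
    by_cases h4 : u ∣ n
    · rw [if_pos h4]
      by_cases h5 : n / u ∈ A
      · rw [ind_of_mem h5, ind_of_mem (A := {n | u ∣ n ∧ n / u ∈ A}) ⟨h4, h5⟩]
      · rw [ind_of_not h5, ind_of_not (A := {n | u ∣ n ∧ n / u ∈ A}) (fun h6 => h5 h6.2)]
    · rw [if_neg h4, ind_of_not (A := {n | u ∣ n ∧ n / u ∈ A}) (fun h6 => h4 h6.1)]
  refine ⟨u * q, Nat.mul_pos hu hq, fun n => ?_, fun hs n v hv => ?_⟩
  · rw [h3, h3]
    have h4 : u ∣ n + u * q ↔ u ∣ n := (Nat.dvd_add_iff_left (dvd_mul_right u q)).symm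
    by_cases h5 : u ∣ n
    · rw [if_pos h5, if_pos (h4.2 h5), Nat.add_mul_div_left _ _ hu, h1]
    · rw [if_neg h5, if_neg (fun h6 => h5 (h4.1 h6))]
  · rw [h3, h3]
    have hvu : u.Coprime v := (Nat.Coprime.coprime_dvd_right (dvd_mul_right u q) hv).symm
    have h4 : u ∣ n * v ^ 2 ↔ u ∣ n :=
      ⟨fun h => (hvu.pow_right 2).dvd_of_dvd_mul_right h, fun h => h.mul_right _⟩
    by_cases h5 : u ∣ n
    · obtain ⟨k, rfl⟩ := h5
      have h6 : u * k * v ^ 2 / u = k * v ^ 2 := by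
        rw [mul_assoc]
        exact Nat.mul_div_cancel_left _ hu
      rw [if_pos (h4.2 (dvd_mul_right u k)), if_pos (dvd_mul_right u k), h6,
        Nat.mul_div_cancel_left _ hu,
        h2 hs k v (Nat.Coprime.coprime_dvd_right (dvd_mul_left q u) hv)]
    · rw [if_neg h5, if_neg (fun h6 => h5 (h4.1 h6))]

/-- Scaled indices. -/
theorem lim_scale {a : ℕ → ℝ} {sq z : Prop} {e : ℝ → ℝ}
    (h : ∀ A, Adm sq (ind A) → Lim z (fun n => ind A n * e (a n))) {u : ℕ} (hu : 1 ≤ u) {A : Set ℕ}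
    (hA : Adm sq (ind A)) : Lim z (fun n => ind A n * e (a (u * n))) := by
  have h1 := h _ (Fac_adm hA hu)
  have h2 : Lim z (fun n => if u ∣ n then ind A (n / u) * e (a n) else 0) := by
    refine h1.congr fun n _ => ?_
    by_cases h4 : u ∣ n
    · rw [if_pos h4]
      by_cases h5 : n / u ∈ A
      · rw [ind_of_mem h5, ind_of_mem (A := {n | u ∣ n ∧ n / u ∈ A}) ⟨h4, h5⟩]
      · rw [ind_of_not h5, ind_of_not (A := {n | u ∣ n ∧ n / u ∈ A}) (fun h6 => h5 h6.2)]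
    · rw [if_neg h4, ind_of_not (A := {n | u ∣ n ∧ n / u ∈ A}) (fun h6 => h4 h6.1), zero_mul]
  refine (Lim.undil (F := fun n => ind A (n / u) * e (a n)) hu h2).congr fun n _ => ?_
  show ind A (u * n / u) * e (a (u * n)) = _
  rw [Nat.mul_div_cancel_left _ hu]

/-- Squarefree indices. -/
theorem lim_iff_sf {l N : ℕ} (hN : 1 ≤ N) {χ lam : ℕ → ℂ} {a : ℕ → ℝ} (ha : Hecke l N χ lam a)
    (sq z : Prop) {e : ℝ → ℝ} (he : ∀ x y, e (x * y) = e x * e y) (hb : ∀ x, |e x| ≤ 1) :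
    (∀ A, Adm sq (ind A) → Lim z (fun n => ind A n * e (a n))) ↔
      ∀ u ∈ Fac N, ∀ A, Adm sq (ind A) →
        Lim z (fun n => ind A n * (ind {n | Squarefree n} n * e (a (u * n)))) := by
  constructor
  · intro h u hu A hA
    have h1 := lim_sf 1 (E := fun n => e (a (u * n))) (fun n => hb _)
      (fun w hw => Lim.of_ind (fun B hB => lim_scale h ((mem_Fac hN).1 hu).1 hB) hw) hA
    rw [Sf_one] at h1
    exact h1
  · intro h
    refine (lim_iff ha sq z he hb).2 fun A hA => ?_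
    exact lim_fac hN hb (fun u hu w hw => Lim.of_ind (h u hu) hw) hA

end Pool.Agent.H.MP_656320_nt
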