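import Mathlib

/-!
# Mean values of real sequences
-/

namespace Pool.Agent.H.MP_656320_nt

open Filter Topology Finset

/-- The mean value of `F` is `c`. -/
def Mean (F : ℕ → ℝ) (c : ℝ) : Prop :=
  Tendsto (fun x : ℕ => (∑ n ∈ Ioc 0 x, F n) / x) atTop (𝓝 c)

theorem Mean.congr {F F' : ℕ → ℝ} {c : ℝ} (h : Mean F c) (hF : ∀ n, 1 ≤ n → F n = F' n) :
    Mean F' c := by
  refine Tendsto.congr (fun x => ?_) h
  rw [Finset.sum_congr rfl fun n hn => hF n (Finset.mem_Ioc.1 hn).1]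

theorem Mean.zero : Mean (fun _ => 0) 0 := by
  refine Tendsto.congr (fun x => ?_) tendsto_const_nhds
  simp

theorem Mean.add {F F' : ℕ → ℝ} {c c' : ℝ} (h : Mean F c) (h' : Mean F' c') :
    Mean (fun n => F n + F' n) (c + c') := by
  refine Tendsto.congr (fun x => ?_) (Tendsto.add h h')
  rw [Finset.sum_add_distrib, add_div]

theorem Mean.smul {F : ℕ → ℝ} {c : ℝ} (k : ℝ) (h : Mean F c) :
    Mean (fun n => k * F n) (k * c) := by
  refine Tendsto.congr (fun x => ?_) (Tendsto.const_mul k h)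
  rw [← Finset.mul_sum, mul_div_assoc]

theorem Mean.sum {ι : Type} (s : Finset ι) {F : ι → ℕ → ℝ} {c : ι → ℝ}
    (h : ∀ i ∈ s, Mean (F i) (c i)) : Mean (fun n => ∑ i ∈ s, F i n) (∑ i ∈ s, c i) := by
  classical
  induction s using Finset.induction_on with
  | empty => simpa using Mean.zero
  | insert i s hi ih =>
    have h1 := (h i (Finset.mem_insert_self i s)).add
      (ih fun j hj => h j (Finset.mem_insert_of_mem hj))
    rw [Finset.sum_insert hi]
    exact h1.congr fun n _ => (Finset.sum_insert (f := fun j => F j n) hi).symm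

theorem Mean.unique {F : ℕ → ℝ} {c c' : ℝ} (h : Mean F c) (h' : Mean F c') : c = c' :=
  tendsto_nhds_unique h h'

private theorem Mn_sum {d : ℕ} (hd : 1 ≤ d) (F : ℕ → ℝ) (x : ℕ) :
    ∑ n ∈ Ioc 0 x, (if d ∣ n then F (n / d) else 0) = ∑ t ∈ Ioc 0 (x / d), F t := by
  rw [← Finset.sum_filter]
  refine Finset.sum_bij' (fun n _ => n / d) (fun t _ => t * d) ?_ ?_ ?_ ?_ ?_
  · intro n hn
    obtain ⟨h1, h2⟩ := Finset.mem_filter.1 hn
    obtain ⟨h3, h4⟩ := Finset.mem_Ioc.1 h1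
    exact Finset.mem_Ioc.2 ⟨Nat.div_pos (Nat.le_of_dvd h3 h2) hd, Nat.div_le_div_right h4⟩
  · intro t ht
    obtain ⟨h3, h4⟩ := Finset.mem_Ioc.1 ht
    refine Finset.mem_filter.2 ⟨Finset.mem_Ioc.2 ⟨Nat.mul_pos h3 hd, ?_⟩, dvd_mul_left d t⟩
    exact (Nat.le_div_iff_mul_le hd).1 h4
  · intro n hn
    exact Nat.div_mul_cancel (Finset.mem_filter.1 hn).2
  · intro t ht
    exact Nat.mul_div_cancel t hd
  · intro n hn
    rfl

private theorem Mn_floor {d : ℕ} (hd : 1 ≤ d) :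
    Tendsto (fun x : ℕ => ((x / d : ℕ) : ℝ) / x) atTop (𝓝 (1 / d)) := by
  have hd0 : (0 : ℝ) < d := by exact_mod_cast hd
  have h1 : Tendsto (fun x : ℕ => (1 : ℝ) / x) atTop (𝓝 0) := tendsto_one_div_atTop_nhds_zero_nat
  have h2 : Tendsto (fun x : ℕ => (1 : ℝ) / d - 1 / x) atTop (𝓝 (1 / d - 0)) :=
    tendsto_const_nhds.sub h1
  rw [sub_zero] at h2
  refine tendsto_of_tendsto_of_tendsto_of_le_of_le' h2 tendsto_const_nhds ?_ ?_
  · filter_upwards [eventually_ge_atTop 1] with x hx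
    have hx0 : (0 : ℝ) < x := by exact_mod_cast hx
    have h3 : (x : ℝ) ≤ d * ((x / d : ℕ) : ℝ) + d := by
      have h4 := Nat.div_add_mod x d
      have h5 := Nat.mod_lt x hd
      have h6 : x ≤ d * (x / d) + d := by omega
      exact_mod_cast h6
    rw [div_sub_div _ _ hd0.ne' hx0.ne', div_le_div_iff₀ (mul_pos hd0 hx0) hx0]
    nlinarith
  · filter_upwards [eventually_ge_atTop 1] with x hx
    have hx0 : (0 : ℝ) < x := by exact_mod_cast hx
    rw [div_le_div_iff₀ hx0 hd0, one_mul]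
    exact_mod_cast Nat.div_mul_le_self x d

/-- Dilation. -/
theorem Mean.dil {F : ℕ → ℝ} {c : ℝ} {d : ℕ} (hd : 1 ≤ d) (h : Mean F c) :
    Mean (fun n => if d ∣ n then F (n / d) else 0) (c / d) := by
  have h1 : Tendsto (fun x : ℕ => x / d) atTop atTop := Nat.tendsto_div_const_atTop (by omega)
  have h2 := (h.comp h1).mul (Mn_floor hd)
  rw [mul_one_div] at h2
  refine Tendsto.congr' ?_ h2
  filter_upwards [eventually_ge_atTop d] with x hx
  have hx0 : (0 : ℝ) < ((x / d : ℕ) : ℝ) := by exact_mod_cast Nat.div_pos hx hd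
  show (∑ n ∈ Ioc 0 (x / d), F n) / ((x / d : ℕ) : ℝ) * (((x / d : ℕ) : ℝ) / x) = _
  rw [Mn_sum hd]
  field_simp

/-- The number of multiples. -/
private theorem Mn_card {d : ℕ} (hd : 1 ≤ d) (x : ℕ) :
    ∑ n ∈ Ioc 0 x, (if d ∣ n then (1 : ℝ) else 0) ≤ x / d := by
  have h1 := Mn_sum hd (fun _ => (1 : ℝ)) x
  rw [h1, Finset.sum_const, Nat.card_Ioc, nsmul_eq_mul, mul_one, Nat.sub_zero]
  exact Nat.cast_div_le

/-- Sums of sequences with mean values, which are supported on the multiples of the squares. -/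
theorem Mean.tan {h : ℕ → ℕ → ℝ} {H : ℕ → ℝ} {c : ℕ → ℝ} (h1 : ∀ m n, |h m n| ≤ 1)
    (h2 : ∀ m n, h m n ≠ 0 → 1 ≤ m ∧ m ^ 2 ∣ n) (h3 : ∀ m, Mean (h m) (c m))
    (hH : ∀ n, 1 ≤ n → H n = ∑ m ∈ range (n + 1), h m n) : Mean H (∑' m, c m) := by
  have hb : ∀ x m : ℕ, |(∑ n ∈ Ioc 0 x, h m n) / x| ≤ 1 / (m : ℝ) ^ 2 := by
    intro x m
    rcases Nat.eq_zero_or_pos m with rfl | hm
    · have h4 : ∀ n, h 0 n = 0 := fun n => by
        by_contra h5
        exact absurd (h2 0 n h5).1 (by omega)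
      simp [h4]
    rcases Nat.eq_zero_or_pos x with rfl | hx
    · simp
    have hx0 : (0 : ℝ) < x := by exact_mod_cast hx
    have hm2 : 1 ≤ m ^ 2 := Nat.one_le_pow _ _ hm
    have h4 : |∑ n ∈ Ioc 0 x, h m n| ≤ x / ((m ^ 2 : ℕ) : ℝ) := by
      refine (Finset.abs_sum_le_sum_abs _ _).trans ((Finset.sum_le_sum fun n _ => ?_).trans
        (Mn_card hm2 x))
      by_cases h5 : h m n = 0
      · rw [h5, abs_zero]
        split_ifs <;> norm_num
      · rw [if_pos (h2 m n h5).2]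
        exact h1 m n
    rw [abs_div, abs_of_pos hx0, div_le_iff₀ hx0]
    refine h4.trans (le_of_eq ?_)
    push_cast
    ring
  have h4 : Tendsto (fun x : ℕ => ∑' m : ℕ, (∑ n ∈ Ioc 0 x, h m n) / (x : ℝ)) atTop
      (𝓝 (∑' m, c m)) := by
    refine tendsto_tsum_of_dominated_convergence (bound := fun m : ℕ => 1 / (m : ℝ) ^ 2)
      (Real.summable_one_div_nat_pow.2 (by norm_num)) (fun m => h3 m)
      (Eventually.of_forall fun x m => ?_)
    rw [Real.norm_eq_abs]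
    exact hb x m
  refine Tendsto.congr (fun x => ?_) h4
  rw [tsum_eq_sum (s := range (x + 1))]
  · rw [← Finset.sum_div, Finset.sum_comm]
    congr 1
    refine Finset.sum_congr rfl fun n hn => ?_
    obtain ⟨hn1, hn2⟩ := Finset.mem_Ioc.1 hn
    rw [hH n hn1]
    symm
    refine Finset.sum_subset (Finset.range_subset_range.2 (by omega)) fun m _ hm => ?_
    by_contra h5
    obtain ⟨h6, h7⟩ := h2 m n h5
    have h8 := Nat.le_of_dvd hn1 h7
    have h9 : m ≤ m ^ 2 := Nat.le_self_pow (by norm_num) m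
    exact hm (Finset.mem_range.2 (by omega))
  · intro m hm
    have h5 : ∑ n ∈ Ioc 0 x, h m n = 0 := by
      refine Finset.sum_eq_zero fun n hn => ?_
      by_contra h5
      obtain ⟨hn1, hn2⟩ := Finset.mem_Ioc.1 hn
      obtain ⟨h6, h7⟩ := h2 m n h5
      have h8 := Nat.le_of_dvd hn1 h7
      have h9 : m ≤ m ^ 2 := Nat.le_self_pow (by norm_num) m
      exact hm (Finset.mem_range.2 (by omega))
    rw [h5, zero_div]

end Pool.Agent.H.MP_656320_nt
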