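import Pool.Agent.H.MP_656320_nt.Fac

/-!
# The conjecture of Bruinier and Kohnen for all indices and for squarefree indices
-/

namespace Pool.Agent.Results.MP_656320_nt.SquarefreeIff

open Filter Topology Pool.Agent.H.MP_656320_nt

/-- The set `A` of integers has natural density `δ`. -/
def Dens (A : Set ℕ) (δ : ℝ) : Prop :=
  Tendsto (fun x : ℕ => (Set.ncard {n : ℕ | 1 ≤ n ∧ n ≤ x ∧ n ∈ A} : ℝ) / x) atTop (𝓝 δ)

/-- The conclusion of the conjecture of Bruinier and Kohnen for the coefficients with index in `A`: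
the sets of the indices of the positive and of the negative coefficients have a natural density, both
densities coincide, and they are one half of the density of the set of the indices of the coefficients
which are not zero. -/
def BK (a : ℕ → ℝ) (A : Set ℕ) : Prop :=
  ∃ δ : ℝ, Dens {n | n ∈ A ∧ 0 < a n} δ ∧ Dens {n | n ∈ A ∧ a n < 0} δ ∧
    Dens {n | n ∈ A ∧ a n ≠ 0} (2 * δ)

/-- The signs of the coefficients with index in `A` have mean value `0`. -/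
def Unb (a : ℕ → ℝ) (A : Set ℕ) : Prop :=
  Tendsto (fun x : ℕ => ((Set.ncard {n : ℕ | 1 ≤ n ∧ n ≤ x ∧ n ∈ A ∧ 0 < a n} : ℝ) -
    Set.ncard {n : ℕ | 1 ≤ n ∧ n ≤ x ∧ n ∈ A ∧ a n < 0}) / x) atTop (𝓝 0)

/-- The set `A` is a union of residue classes modulo some `q`. If `s` is true, then `A` is, moreover,
invariant under multiplication by the squares of the integers prime to `q`. -/
def Cls (s : Prop) (A : Set ℕ) : Prop :=
  ∃ q : ℕ, 1 ≤ q ∧ (∀ n : ℕ, n + q ∈ A ↔ n ∈ A) ∧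
    (s → ∀ n u : ℕ, u.Coprime q → (n * u ^ 2 ∈ A ↔ n ∈ A))

/-- The real sequences which satisfy the Hecke relations of weight `l + 1 / 2` at all prime numbers
prime to some level `N`. -/
def HeckeSeqs (l : ℕ) : Set (ℕ → ℝ) :=
  {a | ∃ (N : ℕ) (χ lam : ℕ → ℂ), 1 ≤ N ∧ Hecke l N χ lam a}

/-- A family of such sequences which is closed under the restriction of the index to unions of square
classes and under the scaling of the index. -/
structure Fam (l : ℕ) (F : Set (ℕ → ℝ)) : Prop where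
  hecke : F ⊆ HeckeSeqs l
  restrict : ∀ a ∈ F, ∀ A : Set ℕ, Cls True A → Set.indicator A a ∈ F
  scale : ∀ a ∈ F, ∀ u : ℕ, 1 ≤ u → (fun n => a (u * n)) ∈ F

open Classical in
private theorem ncard_ind (A : Set ℕ) (x : ℕ) :
    (Set.ncard {n : ℕ | 1 ≤ n ∧ n ≤ x ∧ n ∈ A} : ℝ) = ∑ n ∈ Finset.Ioc 0 x, ind A n := by
  have h1 : {n : ℕ | 1 ≤ n ∧ n ≤ x ∧ n ∈ A} = ↑((Finset.Ioc 0 x).filter (· ∈ A)) := by
    ext n
    simp only [Set.mem_ofPred_eq, Finset.coe_filter, Finset.mem_Ioc]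
    exact ⟨fun h => ⟨⟨h.1, h.2.1⟩, h.2.2⟩, fun h => ⟨h.1.1, h.1.2, h.2⟩⟩
  rw [h1, Set.ncard_coe_finset, ← Finset.sum_boole]
  refine Finset.sum_congr rfl fun n _ => ?_
  by_cases h : n ∈ A
  · rw [if_pos h, ind_of_mem h]
  · rw [if_neg h, ind_of_not h]

private theorem dens_iff (A : Set ℕ) (δ : ℝ) : Dens A δ ↔ Mean (ind A) δ := by
  unfold Dens Mean
  exact tendsto_congr fun x => by rw [ncard_ind]

/-- The sign. -/
private noncomputable def e1 (x : ℝ) : ℝ := if 0 < x then 1 else if x < 0 then -1 else 0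

/-- The absolute value of the sign. -/
private noncomputable def e2 (x : ℝ) : ℝ := if x = 0 then 0 else 1

private theorem e1_pos {x : ℝ} (h : 0 < x) : e1 x = 1 := if_pos h

private theorem e1_neg {x : ℝ} (h : x < 0) : e1 x = -1 := by
  unfold e1
  rw [if_neg (not_lt.2 h.le), if_pos h]

private theorem e1_zero : e1 0 = 0 := by
  unfold e1
  rw [if_neg (lt_irrefl _), if_neg (lt_irrefl _)]

private theorem e1_mul (x y : ℝ) : e1 (x * y) = e1 x * e1 y := by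
  rcases lt_trichotomy x 0 with hx | hx | hx
  · rcases lt_trichotomy y 0 with hy | hy | hy
    · rw [e1_neg hx, e1_neg hy, e1_pos (mul_pos_of_neg_of_neg hx hy)]
      norm_num
    · rw [hy, mul_zero, e1_zero, mul_zero]
    · rw [e1_neg hx, e1_pos hy, e1_neg (mul_neg_of_neg_of_pos hx hy)]
      norm_num
  · rw [hx, zero_mul, e1_zero, zero_mul]
  · rcases lt_trichotomy y 0 with hy | hy | hy
    · rw [e1_pos hx, e1_neg hy, e1_neg (mul_neg_of_pos_of_neg hx hy)]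
      norm_num
    · rw [hy, mul_zero, e1_zero, mul_zero]
    · rw [e1_pos hx, e1_pos hy, e1_pos (mul_pos hx hy)]
      norm_num

private theorem e1_abs (x : ℝ) : |e1 x| ≤ 1 := by
  rcases lt_trichotomy x 0 with hx | hx | hx
  · rw [e1_neg hx]
    norm_num
  · rw [hx, e1_zero]
    norm_num
  · rw [e1_pos hx]
    norm_num

private theorem e2_mul (x y : ℝ) : e2 (x * y) = e2 x * e2 y := by
  unfold e2
  by_cases hx : x = 0
  · rw [hx, zero_mul, if_pos rfl, zero_mul]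
  · by_cases hy : y = 0
    · rw [hy, mul_zero, if_pos rfl, mul_zero]
    · rw [if_neg (mul_ne_zero hx hy), if_neg hx, if_neg hy, one_mul]

private theorem e2_abs (x : ℝ) : |e2 x| ≤ 1 := by
  unfold e2
  split_ifs <;> norm_num

private theorem ind_e (a : ℕ → ℝ) (A : Set ℕ) (n : ℕ) :
    ind {n | n ∈ A ∧ 0 < a n} n = (ind A n * e2 (a n) + ind A n * e1 (a n)) / 2 ∧
    ind {n | n ∈ A ∧ a n < 0} n = (ind A n * e2 (a n) - ind A n * e1 (a n)) / 2 ∧
    ind {n | n ∈ A ∧ a n ≠ 0} n = ind A n * e2 (a n) := by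
  by_cases hA : n ∈ A
  · rcases lt_trichotomy (a n) 0 with h | h | h
    · rw [ind_of_not (A := {n | n ∈ A ∧ 0 < a n}) (fun h1 => absurd h1.2 (not_lt.2 h.le)),
        ind_of_mem (A := {n | n ∈ A ∧ a n < 0}) ⟨hA, h⟩,
        ind_of_mem (A := {n | n ∈ A ∧ a n ≠ 0}) ⟨hA, h.ne⟩, ind_of_mem hA, e1_neg h]
      unfold e2
      rw [if_neg h.ne]
      norm_num
    · rw [ind_of_not (A := {n | n ∈ A ∧ 0 < a n}) (fun h1 => absurd h1.2 (not_lt.2 h.le)),
        ind_of_not (A := {n | n ∈ A ∧ a n < 0}) (fun h1 => absurd h1.2 (not_lt.2 h.ge)),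
        ind_of_not (A := {n | n ∈ A ∧ a n ≠ 0}) (fun h1 => h1.2 h), h, e1_zero]
      unfold e2
      rw [if_pos rfl]
      norm_num
    · rw [ind_of_mem (A := {n | n ∈ A ∧ 0 < a n}) ⟨hA, h⟩,
        ind_of_not (A := {n | n ∈ A ∧ a n < 0}) (fun h1 => absurd h1.2 (not_lt.2 h.le)),
        ind_of_mem (A := {n | n ∈ A ∧ a n ≠ 0}) ⟨hA, h.ne'⟩, ind_of_mem hA, e1_pos h]
      unfold e2
      rw [if_neg h.ne']
      norm_num
  · rw [ind_of_not (A := {n | n ∈ A ∧ 0 < a n}) (fun h1 => hA h1.1),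
      ind_of_not (A := {n | n ∈ A ∧ a n < 0}) (fun h1 => hA h1.1),
      ind_of_not (A := {n | n ∈ A ∧ a n ≠ 0}) (fun h1 => hA h1.1), ind_of_not hA]
    norm_num

private theorem BK_iff (a : ℕ → ℝ) (A : Set ℕ) : BK a A ↔
    Lim True (fun n => ind A n * e1 (a n)) ∧ Lim False (fun n => ind A n * e2 (a n)) := by
  constructor
  · rintro ⟨δ, h1, h2, h3⟩
    rw [dens_iff] at h1 h2 h3
    refine ⟨⟨0, ?_, fun _ => rfl⟩, ⟨2 * δ, ?_, fun h => h.elim⟩⟩
    · have h4 := h1.add (h2.smul (-1))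
      have h5 : δ + -1 * δ = 0 := by ring
      rw [h5] at h4
      refine h4.congr fun n _ => ?_
      obtain ⟨h6, h7, -⟩ := ind_e a A n
      rw [h6, h7]
      ring
    · exact h3.congr fun n _ => (ind_e a A n).2.2
  · rintro ⟨⟨c, h1, h2⟩, ⟨d, h3, -⟩⟩
    rw [h2 trivial] at h1
    refine ⟨d / 2, ?_, ?_, ?_⟩
    · rw [dens_iff]
      have h4 := (h3.add h1).smul (1 / 2)
      have h5 : 1 / 2 * (d + 0) = d / 2 := by ring
      rw [h5] at h4
      refine h4.congr fun n _ => ?_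
      rw [(ind_e a A n).1]
      ring
    · rw [dens_iff]
      have h4 := (h3.add (h1.smul (-1))).smul (1 / 2)
      have h5 : 1 / 2 * (d + -1 * 0) = d / 2 := by ring
      rw [h5] at h4
      refine h4.congr fun n _ => ?_
      rw [(ind_e a A n).2.1]
      ring
    · rw [dens_iff]
      have h5 : 2 * (d / 2) = d := by ring
      rw [h5]
      exact h3.congr fun n _ => (ind_e a A n).2.2.symm

private theorem Unb_iff (a : ℕ → ℝ) (A : Set ℕ) : Unb a A ↔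
    Lim True (fun n => ind A n * e1 (a n)) := by
  have h1 : Unb a A ↔ Mean (fun n => ind A n * e1 (a n)) 0 := by
    unfold Unb Mean
    refine tendsto_congr fun x => ?_
    have h2 := ncard_ind {n | n ∈ A ∧ 0 < a n} x
    have h3 := ncard_ind {n | n ∈ A ∧ a n < 0} x
    have h4 : {n : ℕ | 1 ≤ n ∧ n ≤ x ∧ n ∈ {n | n ∈ A ∧ 0 < a n}} =
        {n : ℕ | 1 ≤ n ∧ n ≤ x ∧ n ∈ A ∧ 0 < a n} := rfl
    have h5 : {n : ℕ | 1 ≤ n ∧ n ≤ x ∧ n ∈ {n | n ∈ A ∧ a n < 0}} =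
        {n : ℕ | 1 ≤ n ∧ n ≤ x ∧ n ∈ A ∧ a n < 0} := rfl
    rw [h4] at h2
    rw [h5] at h3
    rw [h2, h3, ← Finset.sum_sub_distrib]
    congr 1
    refine Finset.sum_congr rfl fun n _ => ?_
    rw [(ind_e a A n).1, (ind_e a A n).2.1]
    ring
  rw [h1]
  exact ⟨fun h => ⟨0, h, fun _ => rfl⟩, fun ⟨c, h2, h3⟩ => by rw [h3 trivial] at h2; exact h2⟩

private theorem ind_iff {A : Set ℕ} {m n : ℕ} : ind A m = ind A n ↔ (m ∈ A ↔ n ∈ A) := by
  by_cases h1 : m ∈ A <;> by_cases h2 : n ∈ A <;>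
    simp [h1, h2, ind_of_mem, ind_of_not]

private theorem adm_iff (s : Prop) (A : Set ℕ) : Adm s (ind A) ↔ Cls s A := by
  constructor
  · rintro ⟨q, hq, h1, h2⟩
    exact ⟨q, hq, fun n => ind_iff.1 (h1 n), fun hs n u hu => ind_iff.1 (h2 hs n u hu)⟩
  · rintro ⟨q, hq, h1, h2⟩
    exact ⟨q, hq, fun n => ind_iff.2 (h1 n), fun hs n u hu => ind_iff.2 (h2 hs n u hu)⟩

private theorem ind_inter (A B : Set ℕ) (n : ℕ) (x : ℝ) :
    ind (A ∩ B) n * x = ind A n * (ind B n * x) := by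
  by_cases h1 : n ∈ A
  · by_cases h2 : n ∈ B
    · rw [ind_of_mem (A := A ∩ B) ⟨h1, h2⟩, ind_of_mem h1, ind_of_mem h2]
      ring
    · rw [ind_of_not (A := A ∩ B) (fun h => h2 h.2), ind_of_not h2]
      ring
  · rw [ind_of_not (A := A ∩ B) (fun h => h1 h.1), ind_of_not h1]
    ring

private theorem main (sq : Prop) {l N : ℕ} {χ lam : ℕ → ℂ} {a : ℕ → ℝ}
    (ha : Hecke l N χ lam a) :
    ((∀ A, Adm sq (ind A) → BK a A) ↔ ∀ A, Adm sq (ind A) → BK a (A ∩ Sf N)) ∧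
    ((∀ A, Adm sq (ind A) → Unb a A) ↔ ∀ A, Adm sq (ind A) → Unb a (A ∩ Sf N)) := by
  have h1 := lim_iff ha sq True e1_mul e1_abs
  have h2 := lim_iff ha sq False e2_mul e2_abs
  have h3 : ∀ (z : Prop) (e : ℝ → ℝ) (A : Set ℕ), Lim z (fun n => ind (A ∩ Sf N) n * e (a n)) ↔
      Lim z (fun n => ind A n * (ind (Sf N) n * e (a n))) := fun z e A =>
    ⟨fun h => h.congr fun n _ => ind_inter _ _ _ _, fun h => h.congr fun n _ =>
      (ind_inter _ _ _ _).symm⟩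
  constructor
  · constructor
    · intro h A hA
      rw [BK_iff, h3, h3]
      exact ⟨h1.1 (fun B hB => ((BK_iff a B).1 (h B hB)).1) A hA,
        h2.1 (fun B hB => ((BK_iff a B).1 (h B hB)).2) A hA⟩
    · intro h A hA
      rw [BK_iff]
      refine ⟨h1.2 (fun B hB => ?_) A hA, h2.2 (fun B hB => ?_) A hA⟩
      · exact (h3 _ _ _).1 ((BK_iff a _).1 (h B hB)).1
      · exact (h3 _ _ _).1 ((BK_iff a _).1 (h B hB)).2
  · constructor
    · intro h A hA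
      rw [Unb_iff, h3]
      exact h1.1 (fun B hB => (Unb_iff a B).1 (h B hB)) A hA
    · intro h A hA
      rw [Unb_iff]
      exact h1.2 (fun B hB => (h3 _ _ _).1 ((Unb_iff a _).1 (h B hB))) A hA

private theorem main2 (sq : Prop) {l N : ℕ} (hN : 1 ≤ N) {χ lam : ℕ → ℂ} {a : ℕ → ℝ}
    (ha : Hecke l N χ lam a) :
    ((∀ A, Adm sq (ind A) → BK a A) ↔ ∀ u ∈ Fac N, ∀ A, Adm sq (ind A) →
      BK (fun n => a (u * n)) (A ∩ {n | Squarefree n})) ∧
    ((∀ A, Adm sq (ind A) → Unb a A) ↔ ∀ u ∈ Fac N, ∀ A, Adm sq (ind A) →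
      Unb (fun n => a (u * n)) (A ∩ {n | Squarefree n})) := by
  have h1 := lim_iff_sf hN ha sq True e1_mul e1_abs
  have h2 := lim_iff_sf hN ha sq False e2_mul e2_abs
  have h3 : ∀ (z : Prop) (e : ℝ → ℝ) (A : Set ℕ) (u : ℕ),
      Lim z (fun n => ind (A ∩ {n | Squarefree n}) n * e (a (u * n))) ↔
      Lim z (fun n => ind A n * (ind {n | Squarefree n} n * e (a (u * n)))) := fun z e A u =>
    ⟨fun h => h.congr fun n _ => ind_inter _ _ _ _, fun h => h.congr fun n _ =>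
      (ind_inter _ _ _ _).symm⟩
  constructor
  · constructor
    · intro h u hu A hA
      rw [BK_iff, h3, h3]
      exact ⟨h1.1 (fun B hB => ((BK_iff a B).1 (h B hB)).1) u hu A hA,
        h2.1 (fun B hB => ((BK_iff a B).1 (h B hB)).2) u hu A hA⟩
    · intro h A hA
      rw [BK_iff]
      refine ⟨h1.2 (fun u hu B hB => ?_) A hA, h2.2 (fun u hu B hB => ?_) A hA⟩
      · exact (h3 _ _ _ _).1 ((BK_iff _ _).1 (h u hu B hB)).1
      · exact (h3 _ _ _ _).1 ((BK_iff _ _).1 (h u hu B hB)).2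
  · constructor
    · intro h u hu A hA
      rw [Unb_iff, h3]
      exact h1.1 (fun B hB => (Unb_iff a B).1 (h B hB)) u hu A hA
    · intro h A hA
      rw [Unb_iff]
      exact h1.2 (fun u hu B hB => (h3 _ _ _ _).1 ((Unb_iff _ _).1 (h u hu B hB))) A hA

private theorem res_of_mem {A : Set ℕ} (a : ℕ → ℝ) {n : ℕ} (h : n ∈ A) :
    Set.indicator A a n = a n := Set.indicator_of_mem h a

private theorem res_of_not {A : Set ℕ} (a : ℕ → ℝ) {n : ℕ} (h : n ∉ A) :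
    Set.indicator A a n = 0 := Set.indicator_of_notMem h a

private theorem res_sets (a : ℕ → ℝ) (A B : Set ℕ) :
    {n | n ∈ B ∧ 0 < Set.indicator A a n} = {n | n ∈ A ∩ B ∧ 0 < a n} ∧
    {n | n ∈ B ∧ Set.indicator A a n < 0} = {n | n ∈ A ∩ B ∧ a n < 0} ∧
    {n | n ∈ B ∧ Set.indicator A a n ≠ 0} = {n | n ∈ A ∩ B ∧ a n ≠ 0} := by
  refine ⟨?_, ?_, ?_⟩
  all_goals
    ext n
    by_cases h : n ∈ A
    · simp [h]
    · simp [h]

private theorem BK_res (a : ℕ → ℝ) (A B : Set ℕ) :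
    BK (Set.indicator A a) B ↔ BK a (A ∩ B) := by
  unfold BK
  rw [(res_sets a A B).1, (res_sets a A B).2.1, (res_sets a A B).2.2]

private theorem Unb_res (a : ℕ → ℝ) (A B : Set ℕ) :
    Unb (Set.indicator A a) B ↔ Unb a (A ∩ B) := by
  unfold Unb
  refine tendsto_congr fun x => ?_
  have h1 : {n : ℕ | 1 ≤ n ∧ n ≤ x ∧ n ∈ B ∧ 0 < Set.indicator A a n} =
      {n : ℕ | 1 ≤ n ∧ n ≤ x ∧ n ∈ A ∩ B ∧ 0 < a n} := by
    ext n
    have h2 := Set.ext_iff.1 (res_sets a A B).1 n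
    exact and_congr_right fun _ => and_congr_right fun _ => h2
  have h2 : {n : ℕ | 1 ≤ n ∧ n ≤ x ∧ n ∈ B ∧ Set.indicator A a n < 0} =
      {n : ℕ | 1 ≤ n ∧ n ≤ x ∧ n ∈ A ∩ B ∧ a n < 0} := by
    ext n
    have h2 := Set.ext_iff.1 (res_sets a A B).2.1 n
    exact and_congr_right fun _ => and_congr_right fun _ => h2
  rw [h1, h2]

private theorem closed1 {l N : ℕ} {χ lam : ℕ → ℂ} {a : ℕ → ℝ} (h : Hecke l N χ lam a) {q : ℕ}
    {A : Set ℕ} (hA : ∀ n u : ℕ, u.Coprime q → (n * u ^ 2 ∈ A ↔ n ∈ A)) :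
    Hecke l (N * q) χ lam (Set.indicator A a) := by
  refine ⟨h.four.mul_right q, fun p hp hpN n hn => ?_⟩
  have h1 : ¬ p ∣ N := fun h2 => hpN (h2.mul_right q)
  have h2 : p.Coprime q := (Nat.Prime.coprime_iff_not_dvd hp).2 fun h3 => hpN (h3.mul_left N)
  have h3 := h.rel p hp h1 n hn
  have h4 : p ^ 2 * n ∈ A ↔ n ∈ A := by
    rw [mul_comm]
    exact hA n p h2
  have h5 : p ^ 2 ∣ n → (n / p ^ 2 ∈ A ↔ n ∈ A) := by
    rintro ⟨k, rfl⟩
    rw [Nat.mul_div_cancel_left _ (pow_pos hp.pos 2), mul_comm]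
    exact (hA k p h2).symm
  by_cases h6 : n ∈ A
  · rw [res_of_mem a h6, res_of_mem a (h4.2 h6)]
    by_cases h7 : p ^ 2 ∣ n
    · rw [if_pos h7, res_of_mem a ((h5 h7).2 h6)]
      rw [if_pos h7] at h3
      exact h3
    · rw [if_neg h7]
      rw [if_neg h7] at h3
      exact h3
  · rw [res_of_not a h6, res_of_not a (fun h7 => h6 (h4.1 h7))]
    by_cases h7 : p ^ 2 ∣ n
    · rw [if_pos h7, res_of_not a (fun h8 => h6 ((h5 h7).1 h8))]
      simp
    · rw [if_neg h7]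
      simp

private theorem closed2 {l N : ℕ} {χ lam : ℕ → ℂ} {a : ℕ → ℝ} (h : Hecke l N χ lam a) {u : ℕ}
    (hu : 1 ≤ u) :
    Hecke l (N * u) (fun n => χ n * (jacobiSym u n : ℂ)) lam (fun n => a (u * n)) := by
  refine ⟨h.four.mul_right u, fun p hp hpN n hn => ?_⟩
  have h1 : ¬ p ∣ N := fun h2 => hpN (h2.mul_right u)
  have h2 : ¬ p ∣ u := fun h3 => hpN (h3.mul_left N)
  have h3 := h.rel p hp h1 (u * n) (Nat.mul_pos hu hn)
  have h4 : p ^ 2 * (u * n) = u * (p ^ 2 * n) := by ring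
  have h5 : jacobiSym ((-1) ^ l * ((u * n : ℕ) : ℤ)) p =
      jacobiSym u p * jacobiSym ((-1) ^ l * (n : ℤ)) p := by
    rw [← jacobiSym.mul_left]
    congr 1
    push_cast
    ring
  have h6 : (jacobiSym (u : ℤ) p) ^ 2 = 1 := by
    refine jacobiSym.sq_one ?_
    exact Int.isCoprime_iff_gcd_eq_one.1 (Nat.isCoprime_iff_coprime.2
      ((Nat.Prime.coprime_iff_not_dvd hp).2 h2).symm)
  have h6' : (jacobiSym (u : ℤ) p : ℂ) ^ 2 = 1 := by exact_mod_cast h6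
  have h7 : (p ^ 2 ∣ u * n) ↔ p ^ 2 ∣ n := by
    constructor
    · intro h8
      exact (Nat.Coprime.pow_left 2
        ((Nat.Prime.coprime_iff_not_dvd hp).2 h2)).dvd_of_dvd_mul_left h8
    · exact fun h8 => h8.mul_left u
  rw [h4, h5] at h3
  show (a (u * (p ^ 2 * n)) : ℂ) + χ p * (jacobiSym u p : ℂ) *
      (jacobiSym ((-1) ^ l * n) p : ℂ) * (p : ℂ) ^ ((l : ℤ) - 1) * (a (u * n) : ℂ) +
      (χ p * (jacobiSym u p : ℂ)) ^ 2 * (p : ℂ) ^ (2 * (l : ℤ) - 1) *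
        ((if p ^ 2 ∣ n then a (u * (n / p ^ 2)) else 0 : ℝ) : ℂ) = lam p * (a (u * n) : ℂ)
  by_cases h8 : p ^ 2 ∣ n
  · rw [if_pos (h7.2 h8), Nat.mul_div_assoc _ h8] at h3
    rw [if_pos h8, mul_pow, h6', ← h3]
    push_cast
    ring
  · rw [if_neg (fun h9 => h8 (h7.1 h9))] at h3
    rw [if_neg h8, ← h3]
    push_cast
    ring

private theorem univ_cls (s : Prop) : Cls s Set.univ :=
  ⟨1, le_rfl, fun _ => ⟨fun _ => trivial, fun _ => trivial⟩,
    fun _ _ _ _ => ⟨fun _ => trivial, fun _ => trivial⟩⟩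

private theorem fam_all (l : ℕ) : Fam l (HeckeSeqs l) := by
  refine ⟨subset_rfl, ?_, ?_⟩
  · rintro a ⟨N, χ, lam, hN, ha⟩ A ⟨q, hq, h1, h2⟩
    exact ⟨N * q, χ, lam, Nat.mul_pos hN hq, closed1 ha (h2 trivial)⟩
  · rintro a ⟨N, χ, lam, hN, ha⟩ u hu
    exact ⟨N * u, _, lam, Nat.mul_pos hN hu, closed2 ha hu⟩

private theorem one {l N : ℕ} {χ lam : ℕ → ℂ} {a : ℕ → ℝ} (hN : 1 ≤ N) (ha : Hecke l N χ lam a)
    (s : Prop) {C : (ℕ → ℝ) → Set ℕ → Prop} (hC : C = BK ∨ C = Unb) :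
    ((∀ A, Cls s A → C a A) ↔ ∀ A, Cls s A → C a (A ∩ Sf N)) ∧
    ((∀ A, Cls s A → C a A) ↔ ∀ u : ℕ, 1 ≤ u → (∀ p : ℕ, p.Prime → p ∣ u → p ∣ N) →
      ∀ A, Cls s A → C (fun n => a (u * n)) (A ∩ {n | Squarefree n})) := by
  have h0 : ∀ D : Set ℕ → Prop, (∀ A, Cls s A → D A) ↔ ∀ A, Adm s (ind A) → D A := fun D =>
    ⟨fun h A hA => h A ((adm_iff s A).1 hA), fun h A hA => h A ((adm_iff s A).2 hA)⟩
  have h1 : ∀ D : ℕ → Set ℕ → Prop,
      (∀ u : ℕ, 1 ≤ u → (∀ p : ℕ, p.Prime → p ∣ u → p ∣ N) → ∀ A, Cls s A → D u A) ↔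
        ∀ u ∈ Fac N, ∀ A, Adm s (ind A) → D u A := fun D =>
    ⟨fun h u hu => (h0 (D u)).1 (h u ((mem_Fac hN).1 hu).1 ((mem_Fac hN).1 hu).2),
      fun h u h2 h3 => (h0 (D u)).2 (h u ((mem_Fac hN).2 ⟨h2, h3⟩))⟩
  rw [h0 (fun A => C a A), h0 (fun A => C a (A ∩ Sf N)),
    h1 (fun u A => C (fun n => a (u * n)) (A ∩ {n | Squarefree n}))]
  rcases hC with rfl | rfl
  · exact ⟨(main s ha).1, (main2 s hN ha).1⟩
  · exact ⟨(main s ha).2, (main2 s hN ha).2⟩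

/-- **All indices and squarefree indices in the conjecture of Bruinier and Kohnen.** -/
theorem result (l : ℕ) (C : (ℕ → ℝ) → Set ℕ → Prop) (hC : C = BK ∨ C = Unb) :
    -- one sequence
    (∀ (N : ℕ) (χ lam : ℕ → ℂ) (a : ℕ → ℝ), 1 ≤ N → Hecke l N χ lam a → ∀ s : Prop,
      ((∀ A, Cls s A → C a A) ↔ ∀ A, Cls s A → C a (A ∩ Sf N)) ∧
      ((∀ A, Cls s A → C a A) ↔ ∀ u : ℕ, 1 ≤ u → (∀ p : ℕ, p.Prime → p ∣ u → p ∣ N) →
        ∀ A, Cls s A → C (fun n => a (u * n)) (A ∩ {n | Squarefree n}))) ∧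
    -- families of sequences
    (∀ F : Set (ℕ → ℝ), Fam l F →
      ((∀ a ∈ F, C a Set.univ) ↔ ∀ a ∈ F, C a {n | Squarefree n})) ∧
    Fam l (HeckeSeqs l) := by
  refine ⟨fun N χ lam a hN ha s => one hN ha s hC, fun F hF => ?_, fam_all l⟩
  have hres : ∀ (a : ℕ → ℝ) (A B : Set ℕ), C (Set.indicator A a) B ↔ C a (A ∩ B) := by
    rcases hC with rfl | rfl
    · exact BK_res
    · exact Unb_res
  constructor
  · intro h a ha
    obtain ⟨N, χ, lam, hN, hH⟩ := hF.hecke ha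
    have h1 := (one hN hH True hC).2.1 (fun A hA => by
      have h4 := (hres a A Set.univ).1 (h _ (hF.restrict a ha A hA))
      rw [Set.inter_univ] at h4
      exact h4) 1 le_rfl (fun p hp h5 => absurd (Nat.dvd_one.1 h5) hp.one_lt.ne') Set.univ
        (univ_cls True)
    simp only [one_mul, Set.univ_inter] at h1
    exact h1
  · intro h a ha
    obtain ⟨N, χ, lam, hN, hH⟩ := hF.hecke ha
    refine (one hN hH True hC).2.2 (fun u hu _ A hA => ?_) Set.univ (univ_cls True)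
    exact (hres _ A _).1 (h _ (hF.restrict _ (hF.scale a ha u hu) A hA))

end Pool.Agent.Results.MP_656320_nt.SquarefreeIff
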